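import Pool.Agent.Helper60.ZW.Def
import Pool.Agent.Helper60.ZC.A1

/-!
# Part A for hypersurfaces: systems of gates, the closure
-/

set_option autoImplicit false

namespace Pool.Agent.Helper60.ZW

open MvPolynomial Pool.Agent.Helper60.ZC Pool.Agent.Helper60.ZH

section

variable {L : Type} [Field L] [Algebra ℂ L]

variable {N : ℕ} (H : Gd N)

theorem Lin.comb {H : Gd N} {D D₀ : LD L} {p : Fin N → Lˣ}
    (h : Lin H D p) (h₀ : Lin H D₀ p) (t : L) : Lin H (D.comb D₀ t) p := by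
  intro q hq
  have h1 : ∀ j, (D.comb D₀ t).f (p j) = D.f (p j) - t * D₀.f (p j) := fun j => rfl
  have h2 : ∑ j, (p j : L) * hw (pderiv j q) p * (D.comb D₀ t).f (p j) =
      ∑ j, (p j : L) * hw (pderiv j q) p * D.f (p j) -
        t * ∑ j, (p j : L) * hw (pderiv j q) p * D₀.f (p j) := by
    rw [Finset.mul_sum, ← Finset.sum_sub_distrib]
    refine Finset.sum_congr rfl fun j _ => ?_
    rw [h1]
    ring
  rw [h2, h q hq, h₀ q hq, mul_zero, sub_zero]

theorem lin_ofDer {H : Gd N} (d : Derivation ℂ L L) {p : Fin N → Lˣ}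
    (h : Zer H p) : Lin H (LD.ofDer d) p := by
  intro q hq
  have h1 := Pool.Agent.W206.CT.E1.chain (k := ℂ) (R := ℂ) d (fun j => (p j : L)) q
  have h2 : aeval (fun j => (p j : L)) q = 0 := h.1 q hq
  rw [h2, map_zero] at h1
  rw [h1]
  refine Finset.sum_congr rfl fun j _ => ?_
  have h3 : (LD.ofDer d).f (p j) = d (p j : L) / (p j : L) := rfl
  have h4 := (p j).ne_zero
  rw [h3, smul_eq_mul]
  change (p j : L) * aeval (fun j => (p j : L)) (pderiv j q) * _ = _
  field_simp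

/-- a finite system of gates with coordinates in `s` which determines `s` over `A` -/
def Det (A : Set Lˣ) (s : Finset Lˣ) : Prop :=
  ∃ 𝒢 : Finset (Fin N → Lˣ), (∀ p ∈ 𝒢, Zer H p ∧ ∀ j, p j ∈ s) ∧
    ∀ D : LD L, (∀ p ∈ 𝒢, Lin H D p) → (∀ a ∈ A, D.f a = 0) → ∀ x ∈ s, D.f x = 0

/-- the elements determined over `A` -/
def Cl (A : Set Lˣ) : Set Lˣ := {x | ∃ s, Det H A s ∧ x ∈ s}

variable {H} {A : Set Lˣ}

theorem Det.union [DecidableEq Lˣ] {s t : Finset Lˣ} (hs : Det H A s) (ht : Det H A t) :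
    Det H A (s ∪ t) := by
  classical
  obtain ⟨G, hG1, hG2⟩ := hs
  obtain ⟨G', hG1', hG2'⟩ := ht
  refine ⟨G ∪ G', fun p hp => ?_, fun D hD hA x hx => ?_⟩
  · rcases Finset.mem_union.1 hp with h | h
    · obtain ⟨h1, h2⟩ := hG1 p h
      exact ⟨h1, fun j => Finset.mem_union_left _ (h2 j)⟩
    · obtain ⟨h1, h2⟩ := hG1' p h
      exact ⟨h1, fun j => Finset.mem_union_right _ (h2 j)⟩
  · rcases Finset.mem_union.1 hx with h | h
    · exact hG2 D (fun p hp => hD p (Finset.mem_union_left _ hp)) hA x h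
    · exact hG2' D (fun p hp => hD p (Finset.mem_union_right _ hp)) hA x h

theorem Det.empty : Det H A ∅ := ⟨∅, by simp, by simp⟩

theorem exists_det (t : Finset Lˣ) (ht : ∀ x ∈ t, x ∈ Cl H A) : ∃ s, Det H A s ∧ t ⊆ s := by
  classical
  induction t using Finset.induction_on with
  | empty => exact ⟨∅, Det.empty, by simp⟩
  | insert a t ha ih =>
    obtain ⟨s, hs, hts⟩ := ih fun x hx => ht x (Finset.mem_insert_of_mem hx)
    obtain ⟨s', hs', has'⟩ := ht a (Finset.mem_insert_self _ _)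
    refine ⟨s' ∪ s, hs'.union hs, ?_⟩
    rw [Finset.insert_subset_iff]
    exact ⟨Finset.mem_union_left _ has', hts.trans Finset.subset_union_right⟩

/-- transitivity -/
theorem Det.trans (B : Finset Lˣ) (hB : ∀ x ∈ B, x ∈ Cl H A) {s : Finset Lˣ}
    (hs : Det H (B : Set Lˣ) s) : ∃ s', Det H A s' ∧ B ⊆ s' ∧ s ⊆ s' := by
  classical
  obtain ⟨t, ⟨G, hG1, hG2⟩, hBt⟩ := exists_det B hB
  obtain ⟨G', hG1', hG2'⟩ := hs
  refine ⟨t ∪ s, ⟨G ∪ G', fun p hp => ?_, fun D hD hA x hx => ?_⟩,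
    hBt.trans Finset.subset_union_left, Finset.subset_union_right⟩
  · rcases Finset.mem_union.1 hp with h | h
    · obtain ⟨h1, h2⟩ := hG1 p h
      exact ⟨h1, fun j => Finset.mem_union_left _ (h2 j)⟩
    · obtain ⟨h1, h2⟩ := hG1' p h
      exact ⟨h1, fun j => Finset.mem_union_right _ (h2 j)⟩
  · have h0 : ∀ x ∈ t, D.f x = 0 := hG2 D (fun p hp => hD p (Finset.mem_union_left _ hp)) hA
    rcases Finset.mem_union.1 hx with h | h
    · exact h0 x h
    · exact hG2' D (fun p hp => hD p (Finset.mem_union_right _ hp)) (fun a ha => h0 a (hBt ha)) x h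

theorem cl_of_det (B : Finset Lˣ) (hB : ∀ x ∈ B, x ∈ Cl H A) {s : Finset Lˣ}
    (hs : Det H (B : Set Lˣ) s) : ∀ x ∈ s, x ∈ Cl H A := by
  intro x hx
  obtain ⟨s', h1, -, h3⟩ := Det.trans B hB hs
  exact ⟨s', h1, h3 hx⟩

theorem cl_self {a : Lˣ} (ha : a ∈ A) : a ∈ Cl H A :=
  ⟨{a}, ⟨∅, by simp, fun D _ hA x hx => by rw [Finset.mem_singleton.1 hx]; exact hA a ha⟩, by simp⟩

theorem cl_cst (c : ℂˣ) : cst L c ∈ Cl H A :=
  ⟨{cst L c}, ⟨∅, by simp, fun D _ _ x hx => by rw [Finset.mem_singleton.1 hx]; exact D.cst' c⟩,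
    by simp⟩

theorem cl_mul {x y : Lˣ} (hx : x ∈ Cl H A) (hy : y ∈ Cl H A) : x * y ∈ Cl H A := by
  classical
  refine cl_of_det {x, y} (fun z hz => ?_) (s := {x * y}) ⟨∅, by simp, fun D _ hA z hz => ?_⟩ _
    (Finset.mem_singleton_self _)
  · rcases Finset.mem_insert.1 hz with rfl | h
    · exact hx
    · rw [Finset.mem_singleton.1 h]; exact hy
  · rw [Finset.mem_singleton.1 hz, D.mul', hA x (by simp), hA y (by simp), add_zero]

theorem cl_inv {x : Lˣ} (hx : x ∈ Cl H A) : x⁻¹ ∈ Cl H A := by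
  classical
  refine cl_of_det {x} (fun z hz => ?_) (s := {x⁻¹}) ⟨∅, by simp, fun D _ hA z hz => ?_⟩ _
    (Finset.mem_singleton_self _)
  · rw [Finset.mem_singleton.1 hz]; exact hx
  · rw [Finset.mem_singleton.1 hz, D.inv, hA x (by simp), neg_zero]

theorem cl_div {x y : Lˣ} (hx : x ∈ Cl H A) (hy : y ∈ Cl H A) : x / y ∈ Cl H A := by
  rw [div_eq_mul_inv]
  exact cl_mul hx (cl_inv hy)

theorem cl_one : (1 : Lˣ) ∈ Cl H A := by
  rw [← cst_one]
  exact cl_cst 1

theorem cl_mprod (s : Multiset Lˣ) (h : ∀ x ∈ s, x ∈ Cl H A) : s.prod ∈ Cl H A := by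
  induction s using Multiset.induction_on with
  | empty => rw [Multiset.prod_zero]; exact cl_one
  | cons a s ih =>
    rw [Multiset.prod_cons]
    exact cl_mul (h a (Multiset.mem_cons_self a s)) (ih fun x hx => h x (Multiset.mem_cons_of_mem hx))

/-- derivations determine the values of all admissible homomorphisms -/
theorem det_formula {u : Lˣ} {s : Finset Lˣ} {G : Finset (Fin N → Lˣ)}
    (hG : ∀ p ∈ G, Zer H p)
    (hdet : ∀ D : LD L, (∀ p ∈ G, Lin H D p) → D.f u = 0 → ∀ x ∈ s, D.f x = 0)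
    (d : Derivation ℂ L L) (hd : (LD.ofDer d).f u = 1) (D : LD L) (hD : ∀ p ∈ G, Lin H D p)
    (x : Lˣ) (hx : x ∈ s) : D.f x = D.f u * (LD.ofDer d).f x := by
  have h1 := hdet (D.comb (LD.ofDer d) (D.f u)) (fun p hp => (hD p hp).comb (lin_ofDer d (hG p hp)) _)
    (by
      change D.f u - D.f u * (LD.ofDer d).f u = 0
      rw [hd]; ring) x hx
  have h2 : D.f x - D.f u * (LD.ofDer d).f x = 0 := h1
  linear_combination h2

end

end Pool.Agent.Helper60.ZW
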