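import Pool.Agent.Helper60.ZW.A4

/-!
# Part A for hypersurfaces: the closure is an algebraically closed field
-/

set_option autoImplicit false

namespace Pool.Agent.Helper60.ZW

open Pool.Agent.Helper60.ZC Pool.Agent.Helper60.ZH

section

open Polynomial

variable {L : Type} [Field L] [Algebra ℂ L] {N₀ : ℕ} {H : Gd N₀}

/-- a valid finite system -/
def Val {N₀ : ℕ} (H : Gd N₀) (G : Finset (Fin N₀ → Lˣ)) (s : Finset Lˣ) : Prop :=
  ∀ p ∈ G, Zer H p ∧ ∀ j, p j ∈ s

theorem Val.mono {G : Finset (Fin N₀ → Lˣ)} {s t : Finset Lˣ} (h : Val H G s) (hst : s ⊆ t) :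
    Val H G t := fun p hp => ⟨(h p hp).1, fun j => hst ((h p hp).2 j)⟩

theorem Val.union [DecidableEq Lˣ] [DecidableEq (Fin N₀ → Lˣ)] {G G' : Finset (Fin N₀ → Lˣ)}
    {s t : Finset Lˣ} (h : Val H G s) (h' : Val H G' t) : Val H (G ∪ G') (s ∪ t) := by
  intro p hp
  rcases Finset.mem_union.1 hp with h1 | h1
  · exact (h.mono Finset.subset_union_left) p h1
  · exact (h'.mono Finset.subset_union_right) p h1

/-- the gadget for an addition -/
theorem gadget (hpl : Mob L H 1 1 0 1) (a b c : Lˣ) (hc : (c : L) = a + b) :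
    ∃ (G : Finset (Fin N₀ → Lˣ)) (s : Finset Lˣ), Val H G s ∧ a ∈ s ∧ b ∈ s ∧ c ∈ s ∧
      ∀ D : LD L, (∀ p ∈ G, Lin H D p) → ((c : L) * D.f c = a * D.f a + b * D.f b ∧
        (D.f a = 0 → D.f b = 0 → ∀ x ∈ s, D.f x = 0)) := by
  classical
  by_cases hnc : NC (a / b)
  · have h1 : c / b ∈ Cl H {a / b} := by
      refine hpl (a / b) hnc (c / b) ?_
      have hb := b.ne_zero
      rw [Units.val_div_eq_div_val, Units.val_div_eq_div_val, hc, map_one, map_zero]
      field_simp
      ring
    obtain ⟨s, ⟨G, hG1, hG2⟩, hcs⟩ := h1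
    obtain ⟨d, hd⟩ := exists_ofDer hnc
    refine ⟨G, s ∪ {a, b, c}, Val.mono hG1 Finset.subset_union_left, by simp, by simp, by simp,
      fun D hD => ⟨?_, fun ha hb x hx => ?_⟩⟩
    · have h2 := det_formula (u := a / b) (s := s) (G := G) (fun p hp => (hG1 p hp).1)
        (fun D hD hDy => hG2 D hD (fun z hz => by rw [Set.mem_singleton_iff.1 hz]; exact hDy)) d hd
        D hD (c / b) hcs
      have h3 : (LD.ofDer d).f (c / b) = (a : L) / c := by
        have h4 : (LD.ofDer d).f (c / b) = d ((c / b : Lˣ) : L) / ((c / b : Lˣ) : L) := rfl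
        have h5 : (LD.ofDer d).f (a / b) = d ((a / b : Lˣ) : L) / ((a / b : Lˣ) : L) := rfl
        have h6 : ((c / b : Lˣ) : L) = ((a / b : Lˣ) : L) + 1 := by
          have hb := b.ne_zero
          rw [Units.val_div_eq_div_val, Units.val_div_eq_div_val, hc]
          field_simp
        have h7 : d ((c / b : Lˣ) : L) = ((a / b : Lˣ) : L) := by
          rw [h6, map_add, d.map_one_eq_zero, add_zero]
          rw [hd] at h5
          rw [eq_comm, div_eq_one_iff_eq (a / b).ne_zero] at h5
          exact h5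
        rw [h4, h7, Units.val_div_eq_div_val, Units.val_div_eq_div_val]
        have hb := b.ne_zero
        have hc := c.ne_zero
        field_simp
      rw [D.div, D.div, h3] at h2
      have hc0 := c.ne_zero
      have h8 : (c : L) * (D.f c - D.f b) = a * (D.f a - D.f b) := by
        rw [h2]
        field_simp
      linear_combination h8 + hc * D.f b
    · have h9 : D.f (a / b) = 0 := by rw [D.div, ha, hb, sub_zero]
      have h10 : ∀ z ∈ s, D.f z = 0 := hG2 D hD (fun z hz => by
        rw [Set.mem_singleton_iff.1 hz]; exact h9)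
      rcases Finset.mem_union.1 hx with h11 | h11
      · exact h10 x h11
      · simp only [Finset.mem_insert, Finset.mem_singleton] at h11
        rcases h11 with rfl | rfl | rfl
        · exact ha
        · exact hb
        · have h12 := h10 _ hcs
          rw [D.div, hb, sub_zero] at h12
          exact h12
  · -- `a / b` is a constant
    unfold NC at hnc
    push Not at hnc
    obtain ⟨k, hk⟩ := hnc
    have hab : a = cst L k * b := by rw [← hk, div_mul_cancel]
    have hk1 : (k : ℂ) + 1 ≠ 0 := by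
      intro h
      apply c.ne_zero
      rw [hc, hab, Units.val_mul, cst_val]
      have h2 : algebraMap ℂ L (k : ℂ) + 1 = 0 := by
        rw [← map_one (algebraMap ℂ L), ← map_add, h, map_zero]
      linear_combination (b : L) * h2
    have hcb : c = cst L (Units.mk0 _ hk1) * b := by
      ext
      rw [hc, hab, Units.val_mul, Units.val_mul, cst_val, cst_val, Units.val_mk0, map_add, map_one]
      ring
    refine ⟨∅, {a, b, c}, fun p hp => absurd hp (Finset.notMem_empty p), by simp, by simp, by simp,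
      fun D _ => ?_⟩
    have h1 : D.f a = D.f b := by rw [hab, D.mul', D.cst', zero_add]
    have h2 : D.f c = D.f b := by rw [hcb, D.mul', D.cst', zero_add]
    refine ⟨?_, fun ha hb x hx => ?_⟩
    · rw [h1, h2, hc]
      ring
    · simp only [Finset.mem_insert, Finset.mem_singleton] at hx
      rcases hx with rfl | rfl | rfl
      · exact ha
      · exact hb
      · rw [h2]; exact hb

theorem cl_add (hpl : Mob L H 1 1 0 1) {A : Set Lˣ} {a b c : Lˣ} (ha : a ∈ Cl H A)
    (hb : b ∈ Cl H A) (hc : (c : L) = a + b) : c ∈ Cl H A := by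
  classical
  obtain ⟨G, s, hG, has, hbs, hcs, hdet⟩ := gadget hpl a b c hc
  refine cl_of_det {a, b} (fun z hz => ?_) (s := s) ⟨G, hG, fun D hD hA => ?_⟩ c hcs
  · rcases Finset.mem_insert.1 hz with rfl | h
    · exact ha
    · rw [Finset.mem_singleton.1 h]; exact hb
  · exact (hdet D hD).2 (hA a (by simp)) (hA b (by simp))

/-- the field of the determined elements -/
def fld (hpl : Mob L H 1 1 0 1) (A : Set Lˣ) : IntermediateField ℂ L where
  carrier := {z | ∀ x : Lˣ, (x : L) = z → x ∈ Cl H A}
  mul_mem' := by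
    intro a b ha hb x hx
    have ha0 : a ≠ 0 := by rintro rfl; apply x.ne_zero; rw [hx, zero_mul]
    have hb0 : b ≠ 0 := by rintro rfl; apply x.ne_zero; rw [hx, mul_zero]
    have h1 : x = Units.mk0 a ha0 * Units.mk0 b hb0 := Units.ext hx
    rw [h1]
    exact cl_mul (ha _ rfl) (hb _ rfl)
  add_mem' := by
    intro a b ha hb x hx
    by_cases ha0 : a = 0
    · subst ha0
      rw [zero_add] at hx
      exact hb x hx
    by_cases hb0 : b = 0
    · subst hb0
      rw [add_zero] at hx
      exact ha x hx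
    exact cl_add hpl (ha (Units.mk0 a ha0) rfl) (hb (Units.mk0 b hb0) rfl) hx
  inv_mem' := by
    intro a ha x hx
    have h1 : x⁻¹ ∈ Cl H A := by
      refine ha _ ?_
      rw [Units.val_inv_eq_inv_val, hx, inv_inv]
    have h2 := cl_inv h1
    rwa [inv_inv] at h2
  algebraMap_mem' := by
    intro c x hx
    have hc : c ≠ 0 := by
      rintro rfl
      rw [map_zero] at hx
      exact x.ne_zero hx
    have h1 : x = cst L (Units.mk0 c hc) := Units.ext hx
    rw [h1]
    exact cl_cst _

theorem mem_fld {hpl : Mob L H 1 1 0 1} {A : Set Lˣ} {x : Lˣ} :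
    (x : L) ∈ fld hpl A ↔ x ∈ Cl H A :=
  ⟨fun h => h x rfl, fun h y hy => by rw [Units.ext hy]; exact h⟩

/-- tracked polynomials in `e` -/
def Tr {hpl : Mob L H 1 1 0 1} {A : Set Lˣ} (e : Lˣ) (q : (fld hpl A)[X]) : Prop :=
  ∃ (G : Finset (Fin N₀ → Lˣ)) (s : Finset Lˣ), Val H G s ∧ e ∈ s ∧
    ∀ D : LD L, (∀ p ∈ G, Lin H D p) → (∀ a ∈ A, D.f a = 0) →
      (D.f e = 0 → ∀ x ∈ s, D.f x = 0) ∧
      ∀ x : Lˣ, (x : L) = aeval (e : L) q → x ∈ s ∧
        (x : L) * D.f x = aeval (e : L) (derivative q) * (e * D.f e)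

theorem tracked {hpl : Mob L H 1 1 0 1} {A : Set Lˣ} (e : Lˣ) (n : ℕ)
    (hn : ∀ q : (fld hpl A)[X], q ≠ 0 → q.natDegree < n → aeval (e : L) q ≠ 0)
    (q : (fld hpl A)[X]) : q.natDegree < n → Tr e q := by
  classical
  induction q using Polynomial.recOnHorner with
  | M0 =>
    intro _
    refine ⟨∅, {e}, fun p hp => absurd hp (Finset.notMem_empty p), by simp, fun D _ _ =>
      ⟨fun he x hx => by rw [Finset.mem_singleton.1 hx]; exact he, fun x hx => ?_⟩⟩
    rw [map_zero] at hx
    exact absurd hx x.ne_zero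
  | MC q a hq0 ha ih =>
    intro hdeg
    rw [natDegree_add_C] at hdeg
    have haL : ((a : fld hpl A) : L) ≠ 0 := fun h => ha (Subtype.ext h)
    let a' : Lˣ := Units.mk0 (a : L) haL
    have ha' : a' ∈ Cl H A := mem_fld.1 a.2
    obtain ⟨sa, ⟨Ga, hGa1, hGa2⟩, has⟩ := ha'
    have hevC : aeval (e : L) (q + C a) = aeval (e : L) q + a := by
      rw [map_add, aeval_C]
      rfl
    by_cases hq : q = 0
    · subst hq
      refine ⟨Ga, insert e sa, Val.mono hGa1 (Finset.subset_insert _ _), by simp,
        fun D hD hA => ⟨fun he x hx => ?_, fun x hx => ?_⟩⟩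
      · rcases Finset.mem_insert.1 hx with rfl | h
        · exact he
        · exact hGa2 D hD hA x h
      · rw [hevC, map_zero, zero_add] at hx
        have hxa : x = a' := Units.ext hx
        rw [hxa, hGa2 D hD hA a' has]
        refine ⟨Finset.mem_insert_of_mem has, ?_⟩
        rw [zero_add, derivative_C, map_zero, mul_zero, zero_mul]
    · have hqe : aeval (e : L) q ≠ 0 := hn q hq hdeg
      let x₁ : Lˣ := Units.mk0 _ hqe
      have hqa : q + C a ≠ 0 := by
        intro h
        have h1 := congrArg (fun p => coeff p 0) h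
        simp only [coeff_add, hq0, coeff_C_zero, zero_add, coeff_zero] at h1
        exact ha h1
      have hxe : aeval (e : L) (q + C a) ≠ 0 := hn _ hqa (by rw [natDegree_add_C]; exact hdeg)
      let x₂ : Lˣ := Units.mk0 _ hxe
      obtain ⟨G1, s1, hG1, he1, hdet1⟩ := ih hdeg
      obtain ⟨G2, s2, hG2, h21, h22, h23, hdet2⟩ := gadget hpl x₁ a' x₂ (by
        change aeval (e : L) (q + C a) = aeval (e : L) q + a
        exact hevC)
      refine ⟨(G1 ∪ G2) ∪ Ga, (s1 ∪ s2) ∪ sa, (hG1.union hG2).union hGa1, by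
        simp [he1], fun D hD hA => ?_⟩
      have hD1 : ∀ p ∈ G1, Lin H D p := fun p hp => hD p (by simp [hp])
      have hD2 : ∀ p ∈ G2, Lin H D p := fun p hp => hD p (by simp [hp])
      have hDa : ∀ p ∈ Ga, Lin H D p := fun p hp => hD p (by simp [hp])
      have h3 := hdet1 D hD1 hA
      have h4 := hdet2 D hD2
      have h5 := hGa2 D hDa hA
      have h6 := h3.2 x₁ rfl
      refine ⟨fun he x hx => ?_, fun x hx => ?_⟩
      · have h7 := h3.1 he
        simp only [Finset.mem_union] at hx
        rcases hx with (hx | hx) | hx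
        · exact h7 x hx
        · exact h4.2 (h7 _ h6.1) (h5 _ has) x hx
        · exact h5 x hx
      · have hx2 : x = x₂ := Units.ext hx
        rw [hx2]
        refine ⟨by simp [h23], ?_⟩
        rw [h4.1, h6.2, h5 _ has, mul_zero, add_zero, derivative_add, derivative_C, add_zero]
  | MX q hq ih =>
    intro hdeg
    rw [natDegree_mul_X hq] at hdeg
    have hqe : aeval (e : L) q ≠ 0 := hn q hq (by omega)
    let x₁ : Lˣ := Units.mk0 _ hqe
    obtain ⟨G1, s1, hG1, he1, hdet1⟩ := ih (by omega)
    refine ⟨G1, insert (x₁ * e) s1, Val.mono hG1 (Finset.subset_insert _ _),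
      Finset.mem_insert_of_mem he1, fun D hD hA => ?_⟩
    have h3 := hdet1 D hD hA
    have h6 := h3.2 x₁ rfl
    refine ⟨fun he x hx => ?_, fun x hx => ?_⟩
    · have h7 := h3.1 he
      rcases Finset.mem_insert.1 hx with rfl | hx
      · rw [D.mul', h7 _ h6.1, he, add_zero]
      · exact h7 x hx
    · have hx2 : x = x₁ * e := by
        ext
        rw [hx, map_mul, aeval_X]
        rfl
      rw [hx2]
      refine ⟨Finset.mem_insert_self _ _, ?_⟩
      have h8 : (x₁ : L) = aeval (e : L) q := rfl
      rw [D.mul', derivative_mul, derivative_X, mul_one, map_add, map_mul, aeval_X, Units.val_mul]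
      have h9 := h6.2
      rw [h8] at h9 ⊢
      linear_combination (e : L) * h9

/-- the field of the determined elements is algebraically closed in `L` -/
theorem alg_mem {hpl : Mob L H 1 1 0 1} {A : Set Lˣ} (e : Lˣ)
    (he : IsAlgebraic (fld hpl A) (e : L)) : e ∈ Cl H A := by
  classical
  have hint : IsIntegral (fld hpl A) (e : L) := he.isIntegral
  set p := minpoly (fld hpl A) (e : L) with hp
  by_cases hmem : (e : L) ∈ fld hpl A
  · exact mem_fld.1 hmem
  have hp0 : p ≠ 0 := minpoly.ne_zero hint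
  have hpe : aeval (e : L) p = 0 := minpoly.aeval _ _
  have hirr : Irreducible p := minpoly.irreducible hint
  have hpd : 0 < p.natDegree := minpoly.natDegree_pos hint
  have hn : ∀ q : (fld hpl A)[X], q ≠ 0 → q.natDegree < p.natDegree → aeval (e : L) q ≠ 0 := by
    intro q hq hqd h
    have h1 := natDegree_le_natDegree (minpoly.degree_le_of_ne_zero (fld hpl A) (e : L) hq h)
    rw [← hp] at h1
    omega
  have hpdiv : divX p * X + C (p.coeff 0) = p := divX_mul_X_add p
  have hdiv0 : divX p ≠ 0 := by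
    intro h
    have h1 : p = C (p.coeff 0) := by rw [← hpdiv, h]; simp
    rw [h1, natDegree_C] at hpd
    exact lt_irrefl _ hpd
  have hdivd : (divX p).natDegree < p.natDegree := by
    rw [natDegree_divX_eq_natDegree_tsub_one]
    omega
  have hx1 := hn _ hdiv0 hdivd
  let x₁ : Lˣ := Units.mk0 _ hx1
  have hprod : (x₁ : L) * e = -((p.coeff 0 : fld hpl A) : L) := by
    have h1 := congrArg (aeval (e : L)) hpdiv
    rw [map_add, map_mul, aeval_X, aeval_C, hpe] at h1
    change aeval (e : L) (divX p) * e = _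
    have h2 : algebraMap (fld hpl A) L (p.coeff 0) = ((p.coeff 0 : fld hpl A) : L) := rfl
    rw [h2] at h1
    linear_combination h1
  have hc : x₁ * e ∈ Cl H A := by
    have h1 : ((x₁ * e : Lˣ) : L) ∈ fld hpl A := by
      rw [Units.val_mul, hprod]
      exact neg_mem (p.coeff 0).2
    exact mem_fld.1 h1
  obtain ⟨sc, ⟨Gc, hGc1, hGc2⟩, hcs⟩ := hc
  obtain ⟨G1, s1, hG1, he1, hdet1⟩ := tracked e p.natDegree hn (divX p) hdivd
  refine ⟨s1 ∪ sc, ⟨G1 ∪ Gc, Val.union hG1 hGc1, fun D hD hA x hx => ?_⟩, by simp [he1]⟩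
  have hD1 : ∀ p ∈ G1, Lin H D p := fun p hp => hD p (by simp [hp])
  have hDc : ∀ p ∈ Gc, Lin H D p := fun p hp => hD p (by simp [hp])
  have h3 := hdet1 D hD1 hA
  have h5 := hGc2 D hDc hA
  have h6 := (h3.2 x₁ rfl).2
  have h7 : D.f x₁ + D.f e = 0 := by rw [← D.mul']; exact h5 _ hcs
  have hder : aeval (e : L) (derivative p) ≠ 0 := by
    refine hn _ ?_ ?_
    · intro h
      have h8 := Polynomial.derivative_eq_zero.1 h
      omega
    · exact natDegree_derivative_lt hpd.ne'
  have hder2 : aeval (e : L) (derivative p) = aeval (e : L) (derivative (divX p)) * e + x₁ := by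
    have h8 := congrArg derivative hpdiv
    rw [derivative_add, derivative_mul, derivative_X, mul_one, derivative_C, add_zero] at h8
    rw [← h8, map_add, map_mul, aeval_X]
    rfl
  have hDe : D.f e = 0 := by
    have h9 : aeval (e : L) (derivative p) * D.f e = 0 := by
      rw [hder2]
      have h10 : D.f x₁ = - D.f e := by linear_combination h7
      rw [h10] at h6
      linear_combination -h6
    rcases mul_eq_zero.1 h9 with h10 | h10
    · exact absurd h10 hder
    · exact h10
  rcases Finset.mem_union.1 hx with h | h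
  · exact h3.1 hDe x h
  · exact h5 x h

/-- every element which is algebraic over the adjoined elements is determined -/
theorem cl_of_alg (hpl : Mob L H 1 1 0 1) (A : Set Lˣ) (e : Lˣ)
    (he : IsAlgebraic (Algebra.adjoin ℂ ((fun x : Lˣ => (x : L)) '' A)) (e : L)) : e ∈ Cl H A := by
  refine alg_mem (hpl := hpl) e ?_
  have hle : Algebra.adjoin ℂ ((fun x : Lˣ => (x : L)) '' A) ≤ (fld hpl A).toSubalgebra := by
    rw [Algebra.adjoin_le_iff]
    rintro _ ⟨a, ha, rfl⟩
    exact mem_fld.2 (cl_self ha)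
  obtain ⟨q, hq0, hq⟩ := he
  refine ⟨q.map (Subalgebra.inclusion hle : _ →+* _), ?_, ?_⟩
  · rw [Polynomial.map_ne_zero_iff]
    · exact hq0
    · exact Subalgebra.inclusion_injective hle
  · rw [aeval_def, eval₂_map]
    rw [aeval_def] at hq
    exact hq

end

end Pool.Agent.Helper60.ZW
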