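import Pool.Agent.Helper60.ZW.Def
import Pool.Agent.Helper60.ZH.B4

/-!
# The rank of the relations of a tuple of points (B4), arbitrary subvarieties
-/

set_option autoImplicit false

namespace Pool.Agent.Helper60.ZW

open Pool.Agent.R948 Pool.Agent.N902.OP Pool.Agent.Helper60.ZH

theorem t_b4 : ZW.S_B4 := by
  classical
  intro N r n d k G V _ _ e α η κ c u' y hr hy hd hη
  choose Λ hΛ hΛ1 using fun i => exists_lat (y i)
  let F := cond e α η Λ
  have hk : k = r * Fintype.card G := by
    have h := Fintype.card_congr e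
    rwa [Fintype.card_fin, Fintype.card_prod, Fintype.card_fin] at h
  have h1 : Module.finrank ℤ (LinearMap.range F) + Module.finrank ℤ (LinearMap.ker F) =
      Module.finrank ℤ ((Fin k × Fin N → ℤ) × ((i : Fin r) → Λ i)) := by
    rw [← F.quotKerEquivRange.finrank_eq]
    exact Submodule.finrank_quotient_add_finrank (LinearMap.ker F)
  have h2 : Module.finrank ℤ ((Fin k × Fin N → ℤ) × ((i : Fin r) → Λ i)) =
      k * N + ∑ i, dr (y i) := by
    rw [Module.finrank_prod, Module.finrank_pi, Module.finrank_pi_fintype, Fintype.card_prod,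
      Fintype.card_fin, Fintype.card_fin]
    simp only [hΛ]
  have h3 : Module.finrank ℤ (LinearMap.range F) ≤
      r * Fintype.card V + (Fintype.card G * N + n) := by
    have h := Submodule.finrank_le (LinearMap.range F)
    rw [Module.finrank_prod, Module.finrank_prod, Module.finrank_pi,
      Module.finrank_pi, Module.finrank_pi, Fintype.card_prod, Fintype.card_prod, Fintype.card_fin,
      Fintype.card_fin, Fintype.card_fin] at h
    exact h
  have h4 : r * (d + 1) ≤ ∑ i, dr (y i) := by
    calc r * (d + 1) = ∑ i : Fin r, (d + 1) := by simp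
      _ ≤ _ := Finset.sum_le_sum fun i _ => hd i
  have h5 : N * k + r * d + 1 ≤ Module.finrank ℤ (LinearMap.ker F) + r * Fintype.card V := by
    have e2 : r * (d + 1) = r * d + r := by ring
    rw [mul_comm (Fintype.card G) N] at h3
    rw [mul_comm k N] at h2
    omega
  -- the relations of the point
  let f : LinearMap.ker F →ₗ[ℤ] (Fin k × Fin N → ℤ) := (LinearMap.fst ℤ _ _).comp (LinearMap.ker F).subtype
  have hker : ∀ p ∈ LinearMap.ker F,
      (∀ i, (fun v => ∑ g, ∑ j, p.1 (e.symm (i, g), j) * α g j v) =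
        ∑ l, (p.2 i : Fin n → ℤ) l • η l) ∧
      (∀ g j, ∑ i, p.1 (e.symm (i, g), j) = 0) ∧
      (∀ l, ∑ i, (p.2 i : Fin n → ℤ) l = 0) := by
    intro p hp
    have h0 : F p = 0 := hp
    refine ⟨fun i => ?_, fun g j => ?_, fun l => ?_⟩
    · funext v
      have h6 := congrFun (congrArg Prod.fst h0) (i, v)
      have h7 : (∑ g, ∑ j, p.1 (e.symm (i, g), j) * α g j v) -
        ∑ l, (p.2 i : Fin n → ℤ) l * η l v = 0 := h6
      rw [sub_eq_zero] at h7
      rw [h7]
      simp
    · exact congrFun (congrArg (fun q => q.2.1) h0) (g, j)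
    · exact congrFun (congrArg (fun q => q.2.2) h0) l
  have hyl : ∀ i (b : Fin n → ℤ), mon (y i) b = mon c b * mon (u' i) (∑ l, b l • η l) := by
    intro i b
    have e1 : y i = fun j => c j * mon (u' i) (η j) := funext fun j => hy i j
    rw [e1, mon_mul_base, mon_sum_exp]
    congr 1
    rw [mon]
    refine Finset.prod_congr rfl fun l _ => ?_
    rw [mon_smul]
  have hinj : Function.Injective f := by
    rw [injective_iff_map_eq_zero]
    rintro ⟨⟨a, b⟩, hp⟩ h0
    have ha : a = 0 := h0
    subst ha
    obtain ⟨e1, -, -⟩ := hker _ hp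
    have hb : b = 0 := by
      funext i
      apply Subtype.ext
      have e2 : ∑ l, (b i : Fin n → ℤ) l • η l = 0 := by
        rw [← e1 i]
        funext v
        simp
      refine hη _ (fun v => ?_) ?_
      · have e3 := congrFun e2 v
        simpa using e3
      · have e4 := hyl i (b i)
        rw [hΛ1 i _ (b i).2, e2, mon_zero, mul_one] at e4
        exact e4.symm
    subst hb
    rfl
  have h6 : Module.finrank ℤ (LinearMap.range f) = Module.finrank ℤ (LinearMap.ker F) :=
    LinearMap.finrank_range_of_inj hinj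
  have h7 := le_dr (om e κ α u') (LinearMap.range f) (by
    rintro _ ⟨⟨⟨a, b⟩, hp⟩, rfl⟩
    obtain ⟨e1, e2, e4⟩ := hker _ hp
    have e5 : f ⟨(a, b), hp⟩ = a := rfl
    rw [e5, mon_om]
    simp only at e1 e2 e4
    have e6 : ∀ g, (fun j => ∑ i, a (e.symm (i, g), j)) = 0 := fun g => funext (e2 g)
    simp only [e6, mon_zero, Finset.prod_const_one, one_mul]
    simp only [e1]
    have e8 : ∀ i, mon (u' i) (∑ l, (b i : Fin n → ℤ) l • η l) = (mon c (b i))⁻¹ := by
      intro i
      have e9 := hyl i (b i)
      rw [hΛ1 i _ (b i).2] at e9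
      exact eq_inv_of_mul_eq_one_right e9.symm
    simp only [e8]
    rw [Finset.prod_inv_distrib, ← mon_sum_exp]
    have e10 : (∑ i, (b i : Fin n → ℤ)) = 0 := by
      funext l
      rw [Finset.sum_apply]
      exact e4 l
    rw [e10, mon_zero, inv_one])
  rw [h6] at h7
  omega

end Pool.Agent.Helper60.ZW
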