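import Pool.Agent.Helper60.ZW.Def
import Pool.Agent.Helper60.ZH.B5

/-!
# The defect of the subvarieties which contain all tuples of points (B5)
-/

set_option autoImplicit false

namespace Pool.Agent.Helper60.ZW

open MvPolynomial Pool.Agent.R948 Pool.Agent.N902.OP Pool.Agent.Helper60.ZC Pool.Agent.Helper60.ZH

theorem t_b5 : ZW.S_B5 := by
  classical
  intro N R _ _ _ _ V G M _ _ _ u κ α gg hh r k e hu hsep ψ₀ hlin A hA hAH hom
  let P : TP ℂ (Fin k × Fin N) := toTP hA
  have hPI : P.I = van A := rfl
  obtain ⟨Λ, hΛ, hΛ1⟩ := exists_lat P.pt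
  have hdf : defect A = ((k * N : ℕ) : ℤ) - dr P.pt - td ℂ (un P.pt) := by
    have h1 := defect_eq hA
    have h2 : (toTP hA).df = (Fintype.card (Fin k × Fin N) : ℤ) - dr P.pt - td ℂ (un P.pt) := rfl
    rw [h2, Fintype.card_prod, Fintype.card_fin, Fintype.card_fin] at h1
    exact h1
  -- the relations of the generic point hold at all points
  have hrel : ∀ z ∈ A, ∀ a ∈ Λ, mon z a = 1 := by
    intro z hz a ha
    have h1 : (binom 1 a : MvPolynomial (Fin k × Fin N) ℂ) ∈ P.I := by
      rw [binom_mem, hΛ1 a ha, map_one, Units.val_one]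
    have h2 : aeval (un z) (binom 1 a : MvPolynomial (Fin k × Fin N) ℂ) = 0 := h1 z hz
    rw [aeval_binom, map_one] at h2
    exact Units.ext h2
  -- they are trivial on the factors
  have hphi : ∀ a ∈ Λ, ∀ i, (fun v => ∑ g, ∑ s, a (e.symm (i, g), s) * α g s v) = 0 := by
    intro a ha i
    set φ : Fin r → V → ℤ := fun i v => ∑ g, ∑ s, a (e.symm (i, g), s) * α g s v with hφ
    change φ i = 0
    have h1 : ∀ χ : R →ₐ[ℂ] ℂ, mon (sp u χ) (φ i) = mon (sp u ψ₀) (φ i) := by
      intro χ
      have h2 := hrel _ (hom (Function.update (fun _ => ψ₀) i χ)) a ha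
      have h3 := hrel _ (hom (fun _ => ψ₀)) a ha
      rw [b5_mon_om] at h2 h3
      have h4 := h2.trans h3.symm
      have h5 := mul_left_cancel h4
      rw [← Finset.mul_prod_erase Finset.univ _ (Finset.mem_univ i),
        ← Finset.mul_prod_erase Finset.univ (fun i => mon (sp u ψ₀) (φ i)) (Finset.mem_univ i)] at h5
      have h6 : ∏ x ∈ Finset.univ.erase i, mon (sp u (Function.update (fun _ => ψ₀) i χ x)) (φ x) =
          ∏ x ∈ Finset.univ.erase i, mon (sp u ψ₀) (φ x) := by
        refine Finset.prod_congr rfl fun x hx => ?_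
        rw [Function.update_of_ne (Finset.mem_erase.1 hx).1]
      rw [Function.update_self] at h5
      have h7 := h6 ▸ h5
      exact mul_right_cancel h7
    refine hu _ ((mon (sp u ψ₀) (φ i) : ℂˣ) : ℂ) ?_
    by_contra hne
    obtain ⟨χ, hχ⟩ := hsep _ (sub_ne_zero.2 hne)
    apply hχ
    rw [map_sub, AlgHom.commutes, ← mon_sp, h1 χ]
    exact sub_self _
  -- the equations
  let a : Fin (Module.finrank ℤ Λ) → (Fin k × Fin N → ℤ) := fun l => (Module.finBasis ℤ Λ l : _)
  have haΛ : ∀ l, a l ∈ Λ := fun l => (Module.finBasis ℤ Λ l).2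
  have hali : LinearIndependent ℤ a :=
    (Module.finBasis ℤ Λ).linearIndependent.map' Λ.subtype (Submodule.ker_subtype Λ)
  let z : Fin k × Fin N → ℂˣ := ZH.om e κ α (fun _ => sp u ψ₀)
  have hz : z ∈ A := hom fun _ => ψ₀
  let F : (Fin r × M) ⊕ Fin (Module.finrank ℤ Λ) → MvPolynomial (Fin k × Fin N) ℂ :=
    Sum.elim (fun q => ZH.eqn (hh q.2) (e.symm (q.1, gg q.2))) (fun l => binom 1 (a l))
  have hF : ∀ p, aeval (un P.pt) (F p) = 0 := by
    rintro (q | l)
    · rw [P.aeval_pt_eq_zero, hPI]
      intro y hy
      rw [ev_eq]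
      exact (ZH.aeval_eqn (hh q.2) (e.symm (q.1, gg q.2)) y).trans (hAH y hy q.1 q.2)
    · change aeval (un P.pt) (binom 1 (a l)) = 0
      rw [aeval_binom, hΛ1 _ (haΛ l), map_one, Units.val_one]
  have hli : LinearIndependent ℂ fun p => fun t => aeval (un z) (pderiv t (F p)) := by
    rw [Fintype.linearIndependent_iff]
    intro c hc
    have h1 : ∀ t, ∑ q : Fin r × M, c (Sum.inl q) *
          (un z t * aeval (un z) (pderiv t (ZH.eqn (hh q.2) (e.symm (q.1, gg q.2))))) +
        ∑ l, (c (Sum.inr l) * ∏ i, un z i ^ (a l i).toNat) * (a l t : ℂ) = 0 := by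
      intro t
      have h2 := congrFun hc t
      rw [Finset.sum_apply, Fintype.sum_sum_type] at h2
      simp only [Pi.smul_apply, smul_eq_mul, Pi.zero_apply] at h2
      have h3 := congrArg (fun x => un z t * x) h2
      simp only [mul_zero, mul_add, Finset.mul_sum] at h3
      rw [← h3]
      congr 1
      · refine Finset.sum_congr rfl fun q _ => ?_
        change _ = un z t * (c (Sum.inl q) *
          aeval (un z) (pderiv t (ZH.eqn (hh q.2) (e.symm (q.1, gg q.2)))))
        ring
      · refine Finset.sum_congr rfl fun l _ => ?_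
        change _ = un z t * (c (Sum.inr l) * aeval (un z) (pderiv t (binom 1 (a l))))
        rw [mul_assoc, ← grad_binom z (a l) (hrel z hz _ (haΛ l)) t]
        ring
    -- the equation at the coordinate `s` of the factor `(i, g)`
    have h2 : ∀ i g s, ∑ m : M, (if gg m = g then c (Sum.inl (i, m)) *
          (un z (e.symm (i, g), s) * hw (pderiv s (hh m)) (fun l => z (e.symm (i, g), l))) else 0) +
        ∑ l, (c (Sum.inr l) * ∏ i, un z i ^ (a l i).toNat) * (a l (e.symm (i, g), s) : ℂ) = 0 := by
      intro i g s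
      refine Eq.trans ?_ (h1 (e.symm (i, g), s))
      congr 1
      rw [Fintype.sum_prod_type, Finset.sum_eq_single i]
      · refine Finset.sum_congr rfl fun m _ => ?_
        rw [pderiv_eqn]
        by_cases hm : gg m = g
        · rw [if_pos hm, hm, if_pos rfl, ZH.aeval_eqn]
        · rw [if_neg hm, if_neg, map_zero, mul_zero, mul_zero]
          intro h3
          exact hm (Prod.mk.inj (e.symm.injective h3)).2.symm
      · intro i' _ hi'
        refine Finset.sum_eq_zero fun m _ => ?_
        rw [pderiv_eqn, if_neg, map_zero, mul_zero, mul_zero]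
        intro h3
        exact hi' (Prod.mk.inj (e.symm.injective h3)).1.symm
      · intro h
        exact absurd (Finset.mem_univ i) h
    -- the coefficients of the equations of the factors
    have h4 : ∀ i m, c (Sum.inl (i, m)) = 0 := by
      intro i
      refine Fintype.linearIndependent_iff.1 hlin (fun m => c (Sum.inl (i, m))) ?_
      funext v
      rw [Finset.sum_apply]
      simp only [Pi.smul_apply, smul_eq_mul, Pi.zero_apply]
      have h5 : ∑ g, ∑ s, (α g s v : ℂ) * ((∑ m : M, (if gg m = g then c (Sum.inl (i, m)) *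
            (un z (e.symm (i, g), s) * hw (pderiv s (hh m)) (fun l => z (e.symm (i, g), l))) else 0)) +
          ∑ l, (c (Sum.inr l) * ∏ i, un z i ^ (a l i).toNat) * (a l (e.symm (i, g), s) : ℂ)) = 0 := by
        refine Finset.sum_eq_zero fun g _ => Finset.sum_eq_zero fun s _ => ?_
        rw [h2, mul_zero]
      have h6 : ∑ g, ∑ s, (α g s v : ℂ) * ∑ l, (c (Sum.inr l) * ∏ i, un z i ^ (a l i).toNat) *
          (a l (e.symm (i, g), s) : ℂ) = 0 := by
        have h7 : ∀ l, ∑ g, ∑ s, (a l (e.symm (i, g), s) : ℂ) * (α g s v : ℂ) = 0 := by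
          intro l
          have h8 := congrFun (hphi (a l) (haΛ l) i) v
          have h9 : ∑ g, ∑ s, a l (e.symm (i, g), s) * α g s v = 0 := h8
          exact_mod_cast h9
        calc _ = ∑ l, (c (Sum.inr l) * ∏ i, un z i ^ (a l i).toNat) *
              ∑ g, ∑ s, (a l (e.symm (i, g), s) : ℂ) * (α g s v : ℂ) := by
              have h8 : ∀ l, (c (Sum.inr l) * ∏ i, un z i ^ (a l i).toNat) *
                  ∑ g, ∑ s, (a l (e.symm (i, g), s) : ℂ) * (α g s v : ℂ) =
                  ∑ g, ∑ s, (α g s v : ℂ) * ((c (Sum.inr l) * ∏ i, un z i ^ (a l i).toNat) *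
                    (a l (e.symm (i, g), s) : ℂ)) := by
                intro l
                rw [Finset.mul_sum]
                refine Finset.sum_congr rfl fun g _ => ?_
                rw [Finset.mul_sum]
                refine Finset.sum_congr rfl fun s _ => ?_
                ring
              simp only [h8]
              conv_rhs => rw [Finset.sum_comm]
              refine Finset.sum_congr rfl fun g _ => ?_
              conv_rhs => rw [Finset.sum_comm]
              refine Finset.sum_congr rfl fun s _ => ?_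
              rw [Finset.mul_sum]
          _ = 0 := by simp [h7]
      have h7 : ∀ g, (fun j => z (e.symm (i, g), j)) = ZH.gt (κ g) (sp u ψ₀) (α g) := by
        intro g
        funext j
        simp [z, ZH.om, ZH.gt]
      have h8 : ∑ g, ∑ s, (α g s v : ℂ) * (∑ m : M, (if gg m = g then c (Sum.inl (i, m)) *
            (un z (e.symm (i, g), s) * hw (pderiv s (hh m)) (fun l => z (e.symm (i, g), l)))
            else 0)) = 0 := by
        have h8 := h5
        simp only [mul_add, Finset.sum_add_distrib] at h8
        rw [h6, add_zero] at h8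
        exact h8
      refine Eq.trans ?_ h8
      have h9 : ∀ g s, (α g s v : ℂ) * (∑ m : M, (if gg m = g then c (Sum.inl (i, m)) *
            (un z (e.symm (i, g), s) * hw (pderiv s (hh m)) (fun l => z (e.symm (i, g), l)))
            else 0)) = ∑ m : M, (if gg m = g then (α g s v : ℂ) * (c (Sum.inl (i, m)) *
            (un z (e.symm (i, g), s) * hw (pderiv s (hh m)) (fun l => z (e.symm (i, g), l))))
            else 0) := by
        intro g s
        rw [Finset.mul_sum]
        refine Finset.sum_congr rfl fun m _ => ?_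
        split_ifs <;> simp
      simp only [h9]
      have h10 : ∑ g, ∑ s, ∑ m : M, (if gg m = g then (α g s v : ℂ) * (c (Sum.inl (i, m)) *
            (un z (e.symm (i, g), s) * hw (pderiv s (hh m)) (fun l => z (e.symm (i, g), l))))
            else 0) = ∑ m : M, ∑ s, (α (gg m) s v : ℂ) * (c (Sum.inl (i, m)) *
            (un z (e.symm (i, gg m), s) *
              hw (pderiv s (hh m)) (fun l => z (e.symm (i, gg m), l)))) := by
        rw [show (∑ g, ∑ s, ∑ m : M, (if gg m = g then (α g s v : ℂ) * (c (Sum.inl (i, m)) *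
            (un z (e.symm (i, g), s) * hw (pderiv s (hh m)) (fun l => z (e.symm (i, g), l))))
            else 0)) = ∑ g, ∑ m : M, ∑ s, (if gg m = g then (α g s v : ℂ) * (c (Sum.inl (i, m)) *
            (un z (e.symm (i, g), s) * hw (pderiv s (hh m)) (fun l => z (e.symm (i, g), l))))
            else 0) from Finset.sum_congr rfl fun g _ => Finset.sum_comm]
        rw [Finset.sum_comm]
        refine Finset.sum_congr rfl fun m _ => ?_
        rw [Finset.sum_eq_single (gg m)]
        · simp
        · intro g _ hg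
          simp [Ne.symm hg]
        · intro h
          exact absurd (Finset.mem_univ _) h
      rw [h10]
      refine Finset.sum_congr rfl fun m _ => ?_
      rw [ZH.row, Finset.mul_sum, h7]
      refine Finset.sum_congr rfl fun s _ => ?_
      have h11 : un z (e.symm (i, gg m), s) =
          ((ZH.gt (κ (gg m)) (sp u ψ₀) (α (gg m)) s : ℂˣ) : ℂ) := by
        rw [← h7 (gg m)]
        rfl
      rw [h11]
      ring
    have h5 : ∀ q, c (Sum.inl q) = 0 := fun q => h4 q.1 q.2
    have h6 : (fun l => c (Sum.inr l) * ∏ i, un z i ^ (a l i).toNat) = 0 := by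
      refine li_cast a hali _ fun t => ?_
      have h7 := h1 t
      simp only [h5, zero_mul, Finset.sum_const_zero, zero_add] at h7
      exact h7
    rintro (j | l)
    · exact h5 j
    · have h7 := congrFun h6 l
      rcases mul_eq_zero.1 h7 with h8 | h8
      · exact h8
      · exfalso
        obtain ⟨i, -, hi⟩ := Finset.prod_eq_zero_iff.1 h8
        exact pow_ne_zero _ (z i).ne_zero hi
  have htr : Pool.Agent.W206.CT.TrGe ℂ (un P.pt) (td ℂ (un P.pt)) := by
    obtain ⟨S, hS, hS2, -⟩ := exists_td ℂ (un P.pt)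
    rw [← hS]
    refine ⟨fun i => un P.pt (S.equivFin.symm i), hS2.comp _ S.equivFin.symm.injective, fun i => ?_⟩
    exact IntermediateField.subset_adjoin _ _ ⟨_, rfl⟩
  have ecard : Fintype.card ((Fin r × M) ⊕ Fin (Module.finrank ℤ Λ)) =
      r * Fintype.card M + Module.finrank ℤ Λ := by
    rw [Fintype.card_sum, Fintype.card_prod, Fintype.card_fin, Fintype.card_fin]
  have h9 := Pool.Agent.W206.CT.E1.gen ℂ (Fin k × Fin N) ℂ P.fld
    (r * Fintype.card M + Module.finrank ℤ Λ)
    (td ℂ (un P.pt)) (un z) (un P.pt) (fun g hg => by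
      rw [P.aeval_pt_eq_zero] at hg
      exact hg z hz) (fun i => F ((Fintype.equivFinOfCardEq ecard).symm i)) (fun i => hF _)
    (hli.comp _ (Fintype.equivFinOfCardEq ecard).symm.injective) htr
  rw [Fintype.card_prod, Fintype.card_fin, Fintype.card_fin, hΛ] at h9
  rw [hdf]
  have h10 : (((r * Fintype.card M + dr P.pt + td ℂ (un P.pt) : ℕ)) : ℤ) ≤ ((k * N : ℕ) : ℤ) := by
    have h11 : r * Fintype.card M + dr P.pt + td ℂ (un P.pt) =
        td ℂ (un P.pt) + (r * Fintype.card M + dr P.pt) := by ring
    rw [h11]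
    exact_mod_cast h9
  push_cast at h10 ⊢
  linarith

end Pool.Agent.Helper60.ZW
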