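import Pool.Agent.Helper60.ZW.Def
import Pool.Agent.Helper60.ZH.B6

/-!
# Part B for subvarieties: the transfer from its ingredients
-/

set_option autoImplicit false

namespace Pool.Agent.Helper60.ZW

open MvPolynomial Pool.Agent.R948 Pool.Agent.Helper60.ZC Pool.Agent.Helper60.ZH

/-- **the transfer** -/
theorem t_b (h4 : S_B4) (h5 : S_B5) : S_B := by
  classical
  have h2 := t_b2
  have h3 := t_b3
  intro N W C fC hC hCW hfC hE hF n Y hY hd
  by_contra hno
  push Not at hno
  obtain ⟨L, _, _, _, z, hz, halg, htd⟩ := exists_gen hY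
  obtain ⟨I, hI, -, hI2⟩ := exists_td ℂ (un z)
  obtain ⟨V, _, G, _, u, c, η, κ, α, hind, hzu, hgate₀, hdet₀⟩ := hE L n z I hI2
  -- independent rows
  let ρ₀ : G × van C → V → L :=
    fun t => ZH.row t.2.1 (ZH.gt (fun j => cst L (κ t.1 j)) u (α t.1)) (α t.1)
  obtain ⟨M, s, hs, hspan, hli⟩ := exists_linearIndependent' L ρ₀
  have : Finite M := hli.finite
  have : Fintype M := Fintype.ofFinite M
  have hcard : Fintype.card V ≤ Fintype.card M + vdim Y := by
    let T : (V → L) →ₗ[L] ((M → L) × (I → L)) :=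
      LinearMap.prod
        (LinearMap.pi fun g => ∑ v, ρ₀ (s g) v • (LinearMap.proj v : (V → L) →ₗ[L] L))
        (LinearMap.pi fun i => ∑ v, (η i v : L) • (LinearMap.proj v : (V → L) →ₗ[L] L))
    have hT : Function.Injective T := by
      rw [injective_iff_map_eq_zero]
      intro δ hδ
      have e1 : ∀ g, ∑ v, ρ₀ (s g) v * δ v = 0 := by
        intro g
        have := congrFun (congrArg Prod.fst hδ) g
        simpa [T] using this
      have e2 : ∀ i ∈ I, ∑ v, (η i v : L) * δ v = 0 := by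
        intro i hi
        have := congrFun (congrArg Prod.snd hδ) ⟨i, hi⟩
        simpa [T] using this
      refine hdet₀ δ (fun g f hf => ?_) e2
      have e3 : ρ₀ (g, ⟨f, hf⟩) ∈ Submodule.span L (Set.range (ρ₀ ∘ s)) := by
        rw [hspan]
        exact Submodule.subset_span ⟨(g, ⟨f, hf⟩), rfl⟩
      change ∑ v, ρ₀ (g, ⟨f, hf⟩) v * δ v = 0
      refine Submodule.span_induction (p := fun x _ => ∑ v, x v * δ v = 0) ?_ ?_ ?_ ?_ e3
      · rintro _ ⟨g', rfl⟩
        exact e1 g'
      · simp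
      · intro x y _ _ hx hy
        simp only [Pi.add_apply, add_mul, Finset.sum_add_distrib, hx, hy, add_zero]
      · intro a x _ hx
        simp only [Pi.smul_apply, smul_eq_mul, mul_assoc, ← Finset.mul_sum, hx, mul_zero]
    have h6 := LinearMap.finrank_le_finrank_of_injective hT
    rw [Module.finrank_prod, Module.finrank_pi, Module.finrank_pi, Module.finrank_pi,
      Fintype.card_coe, hI, htd] at h6
    exact h6
  let gm : M → G := fun m => (s m).1
  let hm : M → MvPolynomial (Fin N) ℂ := fun m => (s m).2.1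
  -- the ring
  let gens : Set L := Set.range (fun v => (u v : L)) ∪ Set.range (fun v => ((u v)⁻¹ : L))
  let R : Subalgebra ℂ L := Algebra.adjoin ℂ gens
  have hgens : gens.Finite := (Set.finite_range _).union (Set.finite_range _)
  have hft : Algebra.FiniteType ℂ R :=
    (Subalgebra.fg_iff_finiteType R).1 (by
      have e1 := Subalgebra.fg_adjoin_finset (R := ℂ) hgens.toFinset
      rwa [Set.Finite.coe_toFinset] at e1)
  have hu1 : ∀ v, (u v : L) ∈ R := fun v => Algebra.subset_adjoin (Or.inl ⟨v, rfl⟩)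
  have hu2 : ∀ v, ((u v)⁻¹ : L) ∈ R := fun v => Algebra.subset_adjoin (Or.inr ⟨v, rfl⟩)
  let uR : V → Rˣ := fun v => ⟨⟨u v, hu1 v⟩, ⟨(u v)⁻¹, hu2 v⟩,
    Subtype.ext (mul_inv_cancel₀ (u v).ne_zero), Subtype.ext (inv_mul_cancel₀ (u v).ne_zero)⟩
  have huR : ∀ v, Units.map (R.val : R →* L) (uR v) = u v := fun v => Units.ext rfl
  have hmon : ∀ (a : ℂˣ) (b : V → ℤ), ((((cR R a * mon uR b : Rˣ) : R)) : L) =
      ((cst L a * mon u b : Lˣ) : L) := by
    intro a b
    have e1 : Units.map (R.val : R →* L) (cR R a * mon uR b) = cst L a * mon u b := by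
      rw [map_mul, map_mon, map_cR]
      have e2 : (fun v => Units.map (R.val : R →* L) (uR v)) = u := funext huR
      rw [e2]
      rfl
    exact congrArg Units.val e1
  let zR : Fin n → Rˣ := fun j => cR R (c j) * mon uR (η j)
  have hzR : ∀ j, ((zR j : R) : L) = z j := by
    intro j
    rw [hzu j]
    exact hmon _ _
  have hzRf : ∀ f : MvPolynomial (Fin n) ℂ, ((aeval (fun i => (zR i : R)) f : R) : L) =
      aeval (un z) f := by
    intro f
    have e1 : (R.val : R →ₐ[ℂ] L) (aeval (fun i => (zR i : R)) f) =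
        aeval (fun i => ((zR i : R) : L)) f := by
      rw [comp_aeval_apply]
      rfl
    have e2 : (fun i => ((zR i : R) : L)) = un z := funext hzR
    rw [← e2]
    exact e1
  have halgR : ∀ x : R, IsAlgebraic (Algebra.adjoin ℂ (Set.range fun i => (zR i : R))) x :=
    alg_descend R (fun i => (zR i : R)) (un z) hzRf halg
  have hdense : ∀ b : R, b ≠ 0 → ∃ ψ ∈ {ψ : R →ₐ[ℂ] ℂ | vdim Y + 1 ≤ dr (sp zR ψ)}, ψ b ≠ 0 := by
    intro b hb
    obtain ⟨ψ, h6, h7⟩ := exists_low h2 (vdim Y + 1) hd R zR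
      (fun f hf => by rw [← hz, ← hzRf, hf]; rfl)
      (fun f hf => by
        apply Subtype.ext
        rw [hzRf, (hz f).2 hf]
        rfl) halgR b hb
    exact ⟨ψ, h6, h7⟩
  -- the gates over `R`
  have huR' : (fun v => Units.map (R.val : R →* L) (uR v)) = u := funext huR
  have hgL : ∀ g, (fun j => Units.map (R.val : R →* L) (gR R (κ g) uR (α g) j)) =
      ZH.gt (fun j => cst L (κ g j)) u (α g) := by
    intro g
    rw [gR_map, huR']
    rfl
  have hgateR : ∀ g, ∀ f ∈ van C, hw f (gR R (κ g) uR (α g)) = 0 := by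
    intro g f hf
    apply Subtype.ext
    change R.val (hw f _) = _
    rw [hw_map, hgL]
    exact (hgate₀ g).1 f hf
  have hgateR2 : ∀ g, hw fC (gR R (κ g) uR (α g)) ≠ 0 := by
    intro g h
    apply (hgate₀ g).2
    change hw fC _ = 0
    rw [← hgL, ← hw_map, h, map_zero]
  obtain ⟨b, hb, hrows⟩ := exists_rows (R := R) (L := L)
    (fun m : M => ZH.row (hm m) (gR R (κ (gm m)) uR (α (gm m))) (α (gm m))) (by
      have e1 : (fun m : M => fun v =>
          algebraMap R L (ZH.row (hm m) (gR R (κ (gm m)) uR (α (gm m))) (α (gm m)) v)) =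
          ρ₀ ∘ s := by
        funext m v
        change R.val (ZH.row _ _ _ v) = _
        rw [row_map, hgL]
        rfl
      rw [e1]
      exact hli)
  obtain ⟨ψ₀, -, hψ₀⟩ := hdense b hb
  have hrow := hrows ψ₀ hψ₀
  -- the parameters
  let r : ℕ := N * Fintype.card G + n + 1
  let k : ℕ := Fintype.card (Fin r × G)
  let e : Fin k ≃ Fin r × G := (Fintype.equivFin (Fin r × G)).symm
  obtain ⟨𝒜, h𝒜, hA, hcov⟩ := hF k (r * Fintype.card M)
  have hindR : ∀ (a : V → ℤ) (x : ℂ), ((mon uR a : Rˣ) : R) = algebraMap ℂ R x → a = 0 := by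
    intro a x hx
    have hx0 : x ≠ 0 := by
      rintro rfl
      rw [map_zero] at hx
      exact (mon uR a).ne_zero hx
    refine hind a (Units.mk0 x hx0) (Units.ext ?_)
    have e1 := hmon 1 a
    have e2 : cR R 1 = 1 := map_one _
    rw [e2, one_mul, cst_one', one_mul, hx] at e1
    exact e1.symm
  have hpow : ∀ ψ : Fin r → (R →ₐ[ℂ] ℂ), ZH.om e κ α (fun i => sp uR (ψ i)) ∈ power W k := by
    intro ψ j
    apply hCW
    rw [← hC.closed.eq]
    intro f hf
    change hw f (ZH.gt (κ (e j).2) (sp uR (ψ (e j).1)) (α (e j).2)) = 0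
    rw [← gR_sp, ← hw_map, hgateR _ f hf, map_zero]
  by_cases hall : ∃ A ∈ 𝒜, ∀ ψ : Fin r → (R →ₐ[ℂ] ℂ), ZH.om e κ α (fun i => sp uR (ψ i)) ∈ A
  · obtain ⟨A, hA1, hA2⟩ := hall
    obtain ⟨hA3, hA4, hA5⟩ := hA A hA1
    have h6 := h5 N R V G M uR κ α gm hm r k e hindR (fun b hb => ?_) ψ₀ ?_ A hA3
      (fun x hx i m => ?_) hA2
    · exact absurd hA5 (not_lt.2 h6)
    · obtain ⟨ψ, -, h6⟩ := hdense b hb
      exact ⟨ψ, h6⟩
    · have e1 : (fun m : M => ZH.row (hm m) (ZH.gt (κ (gm m)) (sp uR ψ₀) (α (gm m)))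
          (α (gm m))) = fun m : M => fun v =>
          ψ₀ (ZH.row (hm m) (gR R (κ (gm m)) uR (α (gm m))) (α (gm m)) v) := by
        funext m v
        rw [row_map, gR_sp]
      rw [e1]
      exact hrow
    · -- the product of the equations vanishes on `A`
      let q : Fin k := e.symm (i, gm m)
      have e2 : ∀ (f : MvPolynomial (Fin N) ℂ) (z : Fin k × Fin N → ℂˣ),
          MvPolynomial.eval (fun t => (z t : ℂ)) (rename (fun l : Fin N => (q, l)) f) =
            hw f (fun l => z (q, l)) := by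
        intro f z
        rw [eval_rename]
        rfl
      have e3 : rename (fun l : Fin N => (q, l)) (hm m) * rename (fun l : Fin N => (q, l)) fC ∈
          van A := by
        intro z hz
        rw [← map_mul, e2]
        exact hfC _ (s m).2.2 _ (hA4 hz q)
      rcases hA3.prime.mem_or_mem e3 with e4 | e4
      · have e5 := e4 x hx
        rw [e2] at e5
        exact e5
      · exfalso
        obtain ⟨ψ₁, -, hψ₁⟩ := hdense _ (hgateR2 (gm m))
        have e5 := e4 _ (hA2 fun _ => ψ₁)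
        rw [e2] at e5
        apply hψ₁
        rw [hw_map, gR_sp]
        have e6 : (fun l => ZH.om e κ α (fun _ => sp uR ψ₁) (q, l)) =
            ZH.gt (κ (gm m)) (sp uR ψ₁) (α (gm m)) := by
          funext l
          change ZH.gt (κ (e q).2) (sp uR ψ₁) (α (e q).2) l = _
          have e7 : e q = (i, gm m) := e.apply_symm_apply _
          rw [e7]
        rw [← e6]
        exact e5
  · push Not at hall
    have hf0 : ∀ A : 𝒜, ∃ f ∈ van (A : Set (Fin k × Fin N → ℂˣ)), ∃ ψ : Fin r → (R →ₐ[ℂ] ℂ),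
        MvPolynomial.eval (fun t => ((ZH.om e κ α (fun i => sp uR (ψ i)) t : ℂˣ) : ℂ)) f ≠ 0 := by
      rintro ⟨A, hA1⟩
      obtain ⟨ψ, hψ⟩ := hall A hA1
      rw [← (hA A hA1).1.closed.eq] at hψ
      simp only [zeros, Set.mem_ofPred_eq, not_forall] at hψ
      obtain ⟨f, hf, hf2⟩ := hψ
      exact ⟨f, hf, ψ, hf2⟩
    choose f hf hf2 using hf0
    have : Finite 𝒜 := h𝒜.to_subtype
    have : Fintype 𝒜 := Fintype.ofFinite 𝒜
    obtain ⟨ψ, hψ1, hψ2⟩ := h3 R {ψ : R →ₐ[ℂ] ℂ | vdim Y + 1 ≤ dr (sp zR ψ)} hdense r 𝒜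
      (fun A ψ => MvPolynomial.eval
        (fun t => ((ZH.om e κ α (fun i => sp uR (ψ i)) t : ℂˣ) : ℂ)) (f A)) (by
        intro A ψ i
        choose b hb using ZH.om_coord e κ α uR ψ i
        refine ⟨aeval b (f A), fun χ => ?_⟩
        rw [comp_aeval_apply]
        have e1 : (fun t => ((ZH.om e κ α
            (fun l => sp uR (Function.update ψ i χ l)) t : ℂˣ) : ℂ)) = fun t => χ (b t) :=
          funext fun t => hb t χ
        rw [e1]
        rfl) hf2
    have hrank := h4 N r n (vdim Y) k G V e α η κ c (fun i => sp uR (ψ i))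
      (fun i => sp zR (ψ i)) (by omega) (fun i j => ?_) hψ1 (fun a ha ha2 => ?_)
    · have hr2 : r * Fintype.card V ≤ r * Fintype.card M + r * vdim Y := by
        rw [← mul_add]
        exact Nat.mul_le_mul_left r hcard
      obtain ⟨A, hA1, hA2⟩ := hcov _ (hpow ψ) (by omega)
      exact hψ2 ⟨A, hA1⟩ (hf ⟨A, hA1⟩ _ hA2)
    · rw [sp_mon]
      rfl
    · by_contra ha0
      obtain ⟨x, hxY, hx⟩ := hno a ha0
      apply hx
      have e1 : mon z a = 1 := by
        have e2 : mon z a = cst L (mon c a) * mon u (fun v => ∑ j, a j * η j v) :=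
          mon_subst z u c η hzu a
        rw [e2, ha2, cst_one', one_mul]
        have e3 : (fun v => ∑ j, a j * η j v) = 0 := funext ha
        rw [e3, mon_zero]
      have e4 : (binom 1 a : MvPolynomial (Fin n) ℂ) ∈ van Y := by
        rw [← hz, aeval_binom, e1, map_one, Units.val_one]
      have e5 := e4 x hxY
      rw [ev_eq, aeval_binom, map_one] at e5
      exact Units.ext e5

end Pool.Agent.Helper60.ZW
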