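import Pool.Agent.Helper60.ZW.Cst

/-!
# Zilber's conjecture and the powers of one subvariety: the powers of cosets
-/

set_option autoImplicit false
set_option linter.unusedSectionVars false

namespace Pool.Agent.Helper60.ZW

open MvPolynomial Pool.Agent.R948

section

variable {k : Type} [Field k] [IsAlgClosed k] {ι : Type} [Fintype ι]

theorem smul_mem_int {W : Submodule ℚ (ι → ℚ)} {v : ι → ℚ} {N : ℕ} (hN : 0 < N) {b : ι → ℤ}
    (hb : ∀ i, (b i : ℚ) = N * v i) : (fun i => (b i : ℚ)) ∈ W ↔ v ∈ W := by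
  have h1 : (fun i => (b i : ℚ)) = (N : ℚ) • v := funext fun i => hb i
  rw [h1]
  exact W.smul_mem_iff (by exact_mod_cast hN.ne')

/-- no subvariety of a coset has a smaller defect -/
theorem defect_cst_le (Λ : Submodule ℚ (ι → ℚ)) (g : ι → kˣ) {A : Set (ι → kˣ)}
    (hA : Subvariety A) (h : A ⊆ cst Λ g) : defect (cst Λ g) ≤ defect A := by
  have hinf : Infinite k := IsAlgClosed.instInfinite
  obtain ⟨d, hd, hcst⟩ := cst_main (k := k) Λ
  have hX := (hcst g).1
  obtain ⟨x₀, hx₀⟩ := hA.nonempty
  have e1 : defect (cst Λ g) = (Fintype.card ι : ℤ) - dr (toTP hX).pt - vdim (cst Λ g) := by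
    rw [defect_eq hX, TP.df, R948.df, TP.td_pt, vdim_eq hX]
  have e2 : defect A = (Fintype.card ι : ℤ) - dr (toTP hA).pt - vdim A := by
    rw [defect_eq hA, TP.df, R948.df, TP.td_pt, vdim_eq hA]
  have h1 : rel (toTP hA).pt ⊔ Λ ≤ crel k (toTP hA).pt := by
    refine sup_le (rel_le_crel _) fun v hv => ?_
    obtain ⟨N, hN, b, hb⟩ := exists_mul_int v
    rw [← smul_mem_int hN hb] at hv ⊢
    rw [crel_pt]
    exact ⟨mon g b, fun x hx => h hx b hv⟩
  have h2 : rel (toTP hA).pt ⊓ Λ ≤ rel (toTP hX).pt := by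
    rintro v ⟨hv, hv2⟩
    obtain ⟨N, hN, b, hb, h3⟩ := exists_int_of_mem_rel hv
    rw [SetLike.mem_coe, ← smul_mem_int hN hb] at hv2
    refine ⟨N, hN, b, hb, ?_⟩
    have h4 : mon x₀ b = 1 := by
      have h5 : binom (1 : k) b ∈ (toTP hA).I := by
        rw [binom_mem, h3, map_one, Units.val_one]
      have h6 : binom (1 : k) b ∈ van A := h5
      have h7 := h6 x₀ hx₀
      rw [ev_eq, aeval_binom, map_one] at h7
      exact Units.ext h7
    have h5 : binom (1 : k) b ∈ (toTP hX).I := by
      intro x hx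
      rw [ev_eq, aeval_binom, hx b hv2, ← h hx₀ b hv2, h4]
      simp
    rw [binom_mem, map_one] at h5
    exact Units.ext h5
  have h3 := vdim_le_of_subset hA _ x₀ (subset_cst hA hx₀)
  have h4 := Submodule.finrank_mono h1
  have h5 := Submodule.finrank_mono h2
  have h6 := Submodule.finrank_sup_add_finrank_inf_eq (rel (toTP hA).pt) Λ
  have h7 := (hcst g).2
  have h8 : dr (toTP hA).pt = Module.finrank ℚ (rel (toTP hA).pt) := rfl
  have h9 : dr (toTP hX).pt = Module.finrank ℚ (rel (toTP hX).pt) := rfl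
  omega

end

/-- the characters of the power -/
def powc {N : ℕ} (Λ : Submodule ℚ (Fin N → ℚ)) (k : ℕ) : Submodule ℚ (Fin k × Fin N → ℚ) where
  carrier := {v | ∀ i, (fun j => v (i, j)) ∈ Λ}
  zero_mem' := fun _ => Λ.zero_mem
  add_mem' := fun {_ _} hv hw i => Λ.add_mem (hv i) (hw i)
  smul_mem' := fun c _ hv i => Λ.smul_mem c (hv i)

theorem power_cst {N : ℕ} (Λ : Submodule ℚ (Fin N → ℚ)) (x₀ : Fin N → ℂˣ) (k : ℕ) :
    power (cst Λ x₀) k = cst (powc Λ k) (fun t => x₀ t.2) := by
  classical
  have hm : ∀ (z : Fin k × Fin N → ℂˣ) (b : Fin k × Fin N → ℤ),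
      mon z b = ∏ i, mon (fun j => z (i, j)) (fun j => b (i, j)) := by
    intro z b
    rw [mon, Fintype.prod_prod_type]
    rfl
  ext z
  constructor
  · intro hz b hb
    rw [hm, hm]
    refine Finset.prod_congr rfl fun i _ => ?_
    exact hz i _ (hb i)
  · intro hz i a ha
    let b : Fin k × Fin N → ℤ := fun t => if t.1 = i then a t.2 else 0
    have hb : (fun t => (b t : ℚ)) ∈ powc Λ k := by
      intro i'
      by_cases h : i' = i
      · have : (fun j => ((b (i', j) : ℤ) : ℚ)) = fun j => (a j : ℚ) := by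
          funext j
          simp [b, h]
        rw [this]
        exact ha
      · have : (fun j => ((b (i', j) : ℤ) : ℚ)) = 0 := by
          funext j
          simp [b, h]
        rw [this]
        exact Λ.zero_mem
    have h1 := hz b hb
    rw [hm, hm, Finset.prod_eq_single i, Finset.prod_eq_single i] at h1
    · have h2 : (fun j => b (i, j)) = a := by
        funext j
        simp [b]
      rw [h2] at h1
      exact h1
    · intro i' _ hi'
      have h2 : (fun j => b (i', j)) = 0 := by
        funext j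
        simp [b, hi']
      rw [h2, mon_zero]
    · intro h
      exact absurd (Finset.mem_univ i) h
    · intro i' _ hi'
      have h2 : (fun j => b (i', j)) = 0 := by
        funext j
        simp [b, hi']
      rw [h2, mon_zero]
    · intro h
      exact absurd (Finset.mem_univ i) h

theorem t_co : S_CO := by
  intro N W hW hc k
  obtain ⟨x₀, hx₀⟩ := hW.nonempty
  have h1 : power W k = cst (powc (crel ℂ (toTP hW).pt) k) (fun t => x₀ t.2) := by
    rw [← power_cst, ← hc.eq_cst hW hx₀]
  obtain ⟨d, hd, hcst⟩ := cst_main (k := ℂ) (powc (crel ℂ (toTP hW).pt) k)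
  rw [h1]
  exact ⟨(hcst _).1, fun A hA h => defect_cst_le _ _ hA h⟩

end Pool.Agent.Helper60.ZW
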