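import Pool.Agent.Helper60.ZW.Def

/-!
# Zilber's conjecture and the powers of one subvariety: the characters which are constant
-/

set_option autoImplicit false
set_option linter.unusedSectionVars false

namespace Pool.Agent.Helper60.ZW

open MvPolynomial Pool.Agent.R948

section

variable {k : Type} [Field k] {ι : Type} [Fintype ι]

/-- the units modulo the constants -/
abbrev Uq (k K : Type) [Field k] [Field K] [Algebra k K] : Type :=
  Kˣ ⧸ (Units.map (algebraMap k K).toMonoidHom).range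

/-- the residue class of a unit -/
def uq (k : Type) {K : Type} [Field k] [Field K] [Algebra k K] : Kˣ →* Uq k K :=
  QuotientGroup.mk' _

/-- the characters which are constant at a point (up to a multiple) -/
def crel (k : Type) {K : Type} [Field k] [Field K] [Algebra k K] (z : ι → Kˣ) :
    Submodule ℚ (ι → ℚ) :=
  rel fun i => uq k (z i)

section

variable {K : Type} [Field K] [Algebra k K]

theorem uq_eq_one (x : Kˣ) : uq k x = 1 ↔ ∃ c : kˣ, x = uo K c := by
  rw [uq, QuotientGroup.mk'_apply, QuotientGroup.eq_one_iff, MonoidHom.mem_range]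
  constructor
  · rintro ⟨c, hc⟩
    exact ⟨c, hc.symm⟩
  · rintro ⟨c, hc⟩
    exact ⟨c, hc.symm⟩

theorem mon_uq (z : ι → Kˣ) (a : ι → ℤ) : mon (fun i => uq k (z i)) a = uq k (mon z a) := by
  simp only [mon, map_prod, map_zpow]

theorem rel_le_crel (z : ι → Kˣ) : rel z ≤ crel k z := by
  intro a ha
  obtain ⟨N, hN, b, hb, h⟩ := exists_int_of_mem_rel ha
  refine ⟨N, hN, b, hb, ?_⟩
  rw [mon_uq, h, map_one]

theorem crel_int [IsAlgClosed k] (z : ι → Kˣ) (a : ι → ℤ) :
    (fun i => (a i : ℚ)) ∈ crel k z ↔ ∃ c : kˣ, mon z a = uo K c := by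
  rw [crel, mem_rel_int]
  constructor
  · rintro ⟨N, hN, h⟩
    rw [mon_uq, ← map_pow, uq_eq_one] at h
    obtain ⟨c, hc⟩ := h
    have h1 : IsIntegral k ((mon z a : Kˣ) : K) := by
      refine ⟨Polynomial.X ^ N - Polynomial.C (c : k), Polynomial.monic_X_pow_sub_C _ hN.ne', ?_⟩
      have h2 := congrArg Units.val hc
      rw [Units.val_pow_eq_pow_val, val_uo] at h2
      simp [h2]
    obtain ⟨ξ, hξ⟩ := mem_range_of_integral h1
    have h2 : ξ ≠ 0 := by
      rintro rfl
      rw [map_zero] at hξ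
      exact (mon z a).ne_zero hξ
    exact ⟨Units.mk0 ξ h2, Units.ext hξ⟩
  · rintro ⟨c, hc⟩
    refine ⟨1, one_pos, ?_⟩
    rw [mon_uq, pow_one, uq_eq_one]
    exact ⟨c, hc⟩

end

variable [IsAlgClosed k]

/-- a character is constant at the generic point iff it is constant on the subvariety -/
theorem crel_pt {A : Set (ι → kˣ)} (hA : Subvariety A) (a : ι → ℤ) :
    (fun i => (a i : ℚ)) ∈ crel k (toTP hA).pt ↔ ∃ c : kˣ, ∀ x ∈ A, mon x a = c := by
  rw [crel_int]
  constructor
  · rintro ⟨c, hc⟩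
    refine ⟨c, fun x hx => ?_⟩
    have h2 : binom (c : k) a ∈ (toTP hA).I := (binom_mem _ _ _).2 (congrArg Units.val hc)
    have h3 : binom (c : k) a ∈ van A := h2
    have h4 := h3 x hx
    rw [ev_eq, aeval_binom] at h4
    exact Units.ext h4
  · rintro ⟨c, hc⟩
    refine ⟨c, Units.ext ?_⟩
    have h2 : binom (c : k) a ∈ (toTP hA).I := by
      intro x hx
      rw [ev_eq, aeval_binom, hc x hx]
      rfl
    exact (binom_mem _ _ _).1 h2

theorem subset_cst {A : Set (ι → kˣ)} (hA : Subvariety A) {x₀ : ι → kˣ} (hx₀ : x₀ ∈ A) :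
    A ⊆ cst (crel k (toTP hA).pt) x₀ := by
  intro x hx a ha
  obtain ⟨c, hc⟩ := (crel_pt hA a).1 ha
  rw [hc x hx, hc x₀ hx₀]

theorem cst_anti {W W' : Submodule ℚ (ι → ℚ)} (h : W ≤ W') (g : ι → kˣ) : cst W' g ⊆ cst W g :=
  fun _ hx a ha => hx a (h ha)

/-- the dimension of a subvariety in a coset -/
theorem vdim_le_of_subset {A : Set (ι → kˣ)} (hA : Subvariety A) (W : Submodule ℚ (ι → ℚ))
    (g : ι → kˣ) (h : A ⊆ cst W g) : vdim A + Module.finrank ℚ W ≤ Fintype.card ι := by
  have hinf : Infinite k := IsAlgClosed.instInfinite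
  obtain ⟨d, hd, hcst⟩ := cst_main (k := k) W
  have h1 : vdim A ≤ d := by
    rcases h.eq_or_ssubset with h2 | h2
    · rw [h2, (hcst g).2]
    · have h3 := Pool.Agent.N902.OP.t_vdim_strict hA (hcst g).1 h2
      rw [(hcst g).2] at h3
      exact h3.le
  omega

theorem eq_cst_of_le {A : Set (ι → kˣ)} (hA : Subvariety A) (W : Submodule ℚ (ι → ℚ))
    (g : ι → kˣ) (h : A ⊆ cst W g) (h2 : Fintype.card ι ≤ vdim A + Module.finrank ℚ W) :
    A = cst W g := by
  have hinf : Infinite k := IsAlgClosed.instInfinite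
  obtain ⟨d, hd, hcst⟩ := cst_main (k := k) W
  rcases h.eq_or_ssubset with h3 | h3
  · exact h3
  · have h4 := Pool.Agent.N902.OP.t_vdim_strict hA (hcst g).1 h3
    rw [(hcst g).2] at h4
    omega

end

theorem isCoset_cst {ι : Type} [Fintype ι] (W : Submodule ℚ (ι → ℚ)) (g : ι → ℂˣ) :
    IsCoset (cst W g) :=
  ⟨g, {a | (fun i => (a i : ℚ)) ∈ W}, rfl⟩

/-- an irreducible coset is defined by the characters which are constant on it -/
theorem IsCoset.eq_cst {ι : Type} [Fintype ι] {W : Set (ι → ℂˣ)} (hW : Subvariety W)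
    (h : IsCoset W) {x₀ : ι → ℂˣ} (hx₀ : x₀ ∈ W) : W = cst (crel ℂ (toTP hW).pt) x₀ := by
  refine Set.Subset.antisymm (subset_cst hW hx₀) ?_
  obtain ⟨g, S, hS⟩ := h
  intro x hx
  rw [hS]
  intro a ha
  have hx₀' := hx₀
  rw [hS] at hx₀'
  have h1 : (fun i => (a i : ℚ)) ∈ crel ℂ (toTP hW).pt := by
    rw [crel_pt]
    refine ⟨mon g a, fun y hy => ?_⟩
    rw [hS] at hy
    exact hy a ha
  have h2 := hx a h1
  exact h2.trans (hx₀' a ha)

end Pool.Agent.Helper60.ZW
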