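import Pool.Agent.Helper60.ZH.Def
import Pool.Agent.Helper60.ZC.A1

/-!
# Zilber's conjecture and the powers of one subvariety: definitions and the statements of the parts
-/

set_option autoImplicit false

namespace Pool.Agent.Helper60.ZW

open MvPolynomial Pool.Agent.R948 Pool.Agent.Helper60.ZC Pool.Agent.Helper60.ZH

/-- the `k`-th power of `W` -/
def power {N : ℕ} (W : Set (Fin N → ℂˣ)) (k : ℕ) : Set (Fin k × Fin N → ℂˣ) :=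
  {z | ∀ i, (fun j => z (i, j)) ∈ W}

/-- translates of algebraic subgroups -/
def IsCoset {ι : Type} [Fintype ι] (W : Set (ι → ℂˣ)) : Prop :=
  ∃ (g : ι → ℂˣ) (S : Set (ι → ℤ)), W = {x | ∀ a ∈ S, ∏ i, x i ^ a i = ∏ i, g i ^ a i}

/-- for every `s`, the points of rank less than `s` of the `k`-th power lie in finitely many subvarieties
of defect less than `s` -/
def FinPts {N : ℕ} (W : Set (Fin N → ℂˣ)) (k : ℕ) : Prop :=
  ∀ s : ℕ, ∃ 𝒜 : Set (Set (Fin k × Fin N → ℂˣ)), 𝒜.Finite ∧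
    (∀ A ∈ 𝒜, Subvariety A ∧ A ⊆ power W k ∧ defect A < s) ∧
    ∀ z ∈ power W k, N * k + 1 ≤ dr z + s → ∃ A ∈ 𝒜, z ∈ A

/-- equations and an inequality -/
structure Gd (N : ℕ) where
  I : Set (MvPolynomial (Fin N) ℂ)
  f : MvPolynomial (Fin N) ℂ

/-- the linearized equations at `p` -/
def Lin {N : ℕ} {L : Type} [Field L] [Algebra ℂ L] (H : Gd N) (D : LD L) (p : Fin N → Lˣ) : Prop :=
  ∀ h ∈ H.I, ∑ j, (p j : L) * hw (pderiv j h) p * D.f (p j) = 0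

/-- `p` satisfies the equations and the inequality -/
def Zer {N : ℕ} {L : Type} [Field L] [Algebra ℂ L] (H : Gd N) (p : Fin N → Lˣ) : Prop :=
  (∀ h ∈ H.I, hw h p = 0) ∧ hw H.f p ≠ 0

/-- **Encoding**. -/
def Enc {N : ℕ} (H : Gd N) : Prop :=
  ∀ (L : Type) [Field L] [Algebra ℂ L] [IsAlgClosed L] (n : ℕ) (w : Fin n → Lˣ) (J : Finset (Fin n)),
    (∀ i, IsAlgebraic (Algebra.adjoin ℂ ((fun j => (w j : L)) '' (J : Set (Fin n)))) (w i : L)) →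
    ∃ (V : Type) (_ : Fintype V) (G : Type) (_ : Fintype G) (u : V → Lˣ) (c : Fin n → ℂˣ)
      (η : Fin n → V → ℤ) (κ : G → Fin N → ℂˣ) (α : G → Fin N → V → ℤ),
      (∀ (a : V → ℤ) (z : ℂˣ), mon u a = cst L z → a = 0) ∧
      (∀ i, w i = cst L (c i) * mon u (η i)) ∧
      (∀ g, Zer H (gt (fun j => cst L (κ g j)) u (α g))) ∧
      ∀ δ : V → L, (∀ g, ∀ h ∈ H.I,
          ∑ v, row h (gt (fun j => cst L (κ g j)) u (α g)) (α g) v * δ v = 0) →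
        (∀ i ∈ J, ∑ v, (η i v : L) * δ v = 0) → δ = 0

/-- **GEN** (the generic point of a subvariety which is not a coset). -/
def S_GEN : Prop :=
  ∀ (N : ℕ) (W : Set (Fin N → ℂˣ)), Subvariety W → ¬ IsCoset W →
    ∃ (Ω : Type) (_ : Field Ω) (_ : Algebra ℂ Ω) (ξ : Fin N → Ωˣ) (B : Finset (Fin N)) (i j : Fin N),
      (∀ h : MvPolynomial (Fin N) ℂ, hw h ξ = 0 ↔ h ∈ van W) ∧ i ∈ B ∧
      AlgebraicIndependent ℂ (fun b : B => (ξ b : Ω)) ∧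
      (∀ l, IsAlgebraic (Algebra.adjoin ℂ ((fun b => (ξ b : Ω)) '' (B : Set (Fin N)))) (ξ l : Ω)) ∧
      ∀ a m : ℤ, (a ≠ 0 ∨ m ≠ 0) →
        Transcendental (Algebra.adjoin ℂ ((fun b => (ξ b : Ω)) '' ((B : Set (Fin N)) \ {i})))
          ((ξ i ^ a * ξ j ^ m : Ωˣ) : Ω)

/-- **EMB** (from the generic point to a curve with generic constants). -/
def S_EMB : Prop :=
  ∀ (N : ℕ) (I : Ideal (MvPolynomial (Fin N) ℂ)) (Ω : Type) [Field Ω] [Algebra ℂ Ω]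
    (ξ : Fin N → Ωˣ) (B : Finset (Fin N)) (i j : Fin N),
    (∀ h : MvPolynomial (Fin N) ℂ, hw h ξ = 0 ↔ h ∈ I) → i ∈ B →
    AlgebraicIndependent ℂ (fun b : B => (ξ b : Ω)) →
    (∀ l, IsAlgebraic (Algebra.adjoin ℂ ((fun b => (ξ b : Ω)) '' (B : Set (Fin N)))) (ξ l : Ω)) →
    (∀ a m : ℤ, (a ≠ 0 ∨ m ≠ 0) →
      Transcendental (Algebra.adjoin ℂ ((fun b => (ξ b : Ω)) '' ((B : Set (Fin N)) \ {i})))
        ((ξ i ^ a * ξ j ^ m : Ωˣ) : Ω)) →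
    ∀ (K : Type) [Field K] [Algebra ℂ K] [IsAlgClosed K] (t : Kˣ), Transcendental ℂ (t : K) →
      ∃ p : Fin N → Kˣ, (∀ h ∈ I, hw h p = 0) ∧ p i = t ∧
        (∀ D : LD K, (∀ h ∈ I, ∑ l, (p l : K) * hw (pderiv l h) p * D.f (p l) = 0) →
          D.f t = 0 → ∀ l, D.f (p l) = 0) ∧
        ∀ a m : ℤ, (a ≠ 0 ∨ m ≠ 0) → ∀ e : ℂˣ, t ^ a * p j ^ m ≠ cst K e

/-- **CO** (the powers of cosets). -/
def S_CO : Prop :=
  ∀ (N : ℕ) (W : Set (Fin N → ℂˣ)), Subvariety W → IsCoset W → ∀ k, Subvariety (power W k) ∧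
    ∀ A, Subvariety A → A ⊆ power W k → defect (power W k) ≤ defect A

/-- **B4** (the rank of the relations of a tuple of points). -/
def S_B4 : Prop :=
  ∀ (N r n d k : ℕ) (G V : Type) [Fintype G] [Fintype V] (e : Fin k ≃ Fin r × G)
    (α : G → Fin N → V → ℤ) (η : Fin n → V → ℤ) (κ : G → Fin N → ℂˣ) (c : Fin n → ℂˣ)
    (u' : Fin r → V → ℂˣ) (y : Fin r → Fin n → ℂˣ),
    N * Fintype.card G + n < r →
    (∀ i j, y i j = c j * mon (u' i) (η j)) → (∀ i, d + 1 ≤ dr (y i)) →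
    (∀ a : Fin n → ℤ, (∀ v, ∑ j, a j * η j v = 0) → mon c a = 1 → a = 0) →
    N * k + r * d + 1 ≤ dr (om e κ α u') + r * Fintype.card V

/-- **B5** (the defect of the subvarieties which contain all tuples of points). -/
def S_B5 : Prop :=
  ∀ (N : ℕ) (R : Type) [CommRing R] [IsDomain R] [Algebra ℂ R]
    [Algebra.FiniteType ℂ R] (V G M : Type) [Fintype V] [Fintype G] [Fintype M] (u : V → Rˣ)
    (κ : G → Fin N → ℂˣ) (α : G → Fin N → V → ℤ) (g : M → G) (h : M → MvPolynomial (Fin N) ℂ)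
    (r k : ℕ) (e : Fin k ≃ Fin r × G),
    (∀ (a : V → ℤ) (z : ℂ), ((mon u a : Rˣ) : R) = algebraMap ℂ R z → a = 0) →
    (∀ b : R, b ≠ 0 → ∃ ψ : R →ₐ[ℂ] ℂ, ψ b ≠ 0) →
    ∀ ψ₀ : R →ₐ[ℂ] ℂ, LinearIndependent ℂ (fun m : M =>
      row (h m) (gt (κ (g m)) (sp u ψ₀) (α (g m))) (α (g m))) →
    ∀ A : Set (Fin k × Fin N → ℂˣ), Subvariety A →
      (∀ z ∈ A, ∀ (i : Fin r) (m : M), hw (h m) (fun l => z (e.symm (i, g m), l)) = 0) →
      (∀ ψ : Fin r → (R →ₐ[ℂ] ℂ), om e κ α (fun i => sp u (ψ i)) ∈ A) →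
      ((r * Fintype.card M : ℕ) : ℤ) ≤ defect A

/-- **EMB** with an inequality. -/
def S_EMB2 : Prop :=
  ∀ (N : ℕ) (I : Ideal (MvPolynomial (Fin N) ℂ)) (Ω : Type) [Field Ω] [Algebra ℂ Ω]
    (ξ : Fin N → Ωˣ) (B : Finset (Fin N)) (i j : Fin N) (f : MvPolynomial (Fin N) ℂ),
    (∀ h : MvPolynomial (Fin N) ℂ, hw h ξ = 0 ↔ h ∈ I) → i ∈ B →
    AlgebraicIndependent ℂ (fun b : B => (ξ b : Ω)) →
    (∀ l, IsAlgebraic (Algebra.adjoin ℂ ((fun b => (ξ b : Ω)) '' (B : Set (Fin N)))) (ξ l : Ω)) →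
    (∀ a m : ℤ, (a ≠ 0 ∨ m ≠ 0) →
      Transcendental (Algebra.adjoin ℂ ((fun b => (ξ b : Ω)) '' ((B : Set (Fin N)) \ {i})))
        ((ξ i ^ a * ξ j ^ m : Ωˣ) : Ω)) → hw f ξ ≠ 0 →
    ∀ (K : Type) [Field K] [Algebra ℂ K] [IsAlgClosed K] (t : Kˣ), Transcendental ℂ (t : K) →
      ∃ p : Fin N → Kˣ, (∀ h ∈ I, hw h p = 0) ∧ hw f p ≠ 0 ∧ p i = t ∧
        (∀ D : LD K, (∀ h ∈ I, ∑ l, (p l : K) * hw (pderiv l h) p * D.f (p l) = 0) →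
          D.f t = 0 → ∀ l, D.f (p l) = 0) ∧
        ∀ a m : ℤ, (a ≠ 0 ∨ m ≠ 0) → ∀ e : ℂˣ, t ^ a * p j ^ m ≠ cst K e

/-- **B** (the transfer). -/
def S_B : Prop :=
  ∀ (N : ℕ) (W C : Set (Fin N → ℂˣ)) (f : MvPolynomial (Fin N) ℂ), Subvariety C → C ⊆ W →
    (∀ h ∈ van C, h * f ∈ van W) → Enc ⟨(van C : Set (MvPolynomial (Fin N) ℂ)), f⟩ →
    (∀ k, FinPts W k) → ZilR

end Pool.Agent.Helper60.ZW
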