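import Pool.Agent.Helper60.ZW.Def

/-!
# From the generic point to a curve with generic constants (EMB)
-/

set_option autoImplicit false

namespace Pool.Agent.Helper60.ZW

open MvPolynomial Pool.Agent.R948 Pool.Agent.Helper60.ZC Pool.Agent.Helper60.ZH

namespace Emb

/-- countable fields of definition -/
theorem exists_fld (T : Set ℂ) (hT : T.Countable) : ∃ (k : Type) (_ : Field k) (_ : Countable k)
    (ι : k →+* ℂ), T ⊆ Set.range ι := by
  refine ⟨Subfield.closure T, inferInstance, ?_, (Subfield.closure T).subtype, ?_⟩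
  · have h1 := Subfield.cardinalMk_closure_le_max T
    rw [← Cardinal.mk_le_aleph0_iff]
    exact h1.trans (max_le (Cardinal.mk_le_aleph0_iff.2 hT.to_subtype) le_rfl)
  · intro x hx
    exact ⟨⟨x, Subfield.subset_closure hx⟩, rfl⟩

/-- an algebraically independent family of complex numbers over a countable field -/
theorem exists_indep (k : Type) [Field k] [Countable k] [Algebra k ℂ] (β : Type) [Finite β] :
    ∃ c : β → ℂ, AlgebraicIndependent k c := by
  obtain ⟨J, x, hx⟩ := exists_isTranscendenceBasis' k (A := ℂ)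
  have h1 := IsAlgClosed.cardinal_eq_cardinal_transcendence_basis_of_aleph0_lt x hx
    Cardinal.mk_le_aleph0 (by
      rw [Cardinal.mk_complex]
      exact Cardinal.aleph0_lt_continuum)
  rw [Cardinal.lift_id, Cardinal.lift_id, Cardinal.mk_complex] at h1
  have hJ : Infinite J := by
    rw [Cardinal.infinite_iff, ← h1]
    exact Cardinal.aleph0_le_continuum
  obtain ⟨n, ⟨e⟩⟩ := Finite.exists_equiv_fin β
  refine ⟨fun b => x (Infinite.natEmbedding J (e b)), hx.1.comp
    (fun b => Infinite.natEmbedding J (e b)) fun b b' h => ?_⟩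
  exact e.injective (Fin.ext ((Infinite.natEmbedding J).injective h))

/-- elements of an algebra over `ℂ` come from a field which contains finitely many complex numbers -/
theorem mem_desc {Ω : Type} [Field Ω] [Algebra ℂ Ω] (s : Set Ω) (a : Ω)
    (ha : a ∈ Algebra.adjoin ℂ s) : ∃ T : Set ℂ, T.Finite ∧ ∀ (k : Type) [Field k] [Algebra k ℂ]
      [Algebra k Ω] [IsScalarTower k ℂ Ω], T ⊆ Set.range (algebraMap k ℂ) →
      a ∈ Algebra.adjoin k s := by
  induction ha using Algebra.adjoin_induction with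
  | mem x hx => exact ⟨∅, Set.finite_empty, fun k _ _ _ _ _ => Algebra.subset_adjoin hx⟩
  | algebraMap r =>
    refine ⟨{r}, Set.finite_singleton r, fun k _ _ _ _ h => ?_⟩
    obtain ⟨z, hz⟩ := h rfl
    rw [← hz, ← IsScalarTower.algebraMap_apply]
    exact Subalgebra.algebraMap_mem _ z
  | add x y _ _ hx hy =>
    obtain ⟨T, hT, h⟩ := hx
    obtain ⟨T', hT', h'⟩ := hy
    exact ⟨T ∪ T', hT.union hT', fun k _ _ _ _ hk => add_mem (h k (Set.subset_union_left.trans hk))
      (h' k (Set.subset_union_right.trans hk))⟩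
  | mul x y _ _ hx hy =>
    obtain ⟨T, hT, h⟩ := hx
    obtain ⟨T', hT', h'⟩ := hy
    exact ⟨T ∪ T', hT.union hT', fun k _ _ _ _ hk => mul_mem (h k (Set.subset_union_left.trans hk))
      (h' k (Set.subset_union_right.trans hk))⟩

/-- algebraicity comes from a field which contains finitely many complex numbers -/
theorem alg_desc {Ω : Type} [Field Ω] [Algebra ℂ Ω] (s : Set Ω) (x : Ω)
    (hx : IsAlgebraic (Algebra.adjoin ℂ s) x) : ∃ T : Set ℂ, T.Finite ∧
      ∀ (k : Type) [Field k] [Algebra k ℂ]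
      [Algebra k Ω] [IsScalarTower k ℂ Ω], T ⊆ Set.range (algebraMap k ℂ) →
      IsAlgebraic (Algebra.adjoin k s) x := by
  classical
  obtain ⟨P, hP, hPx⟩ := hx
  choose T hT h using fun n : ℕ => mem_desc s (P.coeff n : Ω) (P.coeff n).2
  refine ⟨⋃ n ∈ P.support, T n, P.support.finite_toSet.biUnion fun n _ => hT n,
    fun k _ _ _ _ hk => ?_⟩
  have h1 : ∀ n ∈ P.support, (P.coeff n : Ω) ∈ Algebra.adjoin k s := fun n hn =>
    h n k ((Set.subset_biUnion_of_mem (u := T) hn).trans hk)
  have h2 : ∀ n, (P.coeff n : Ω) ∈ Algebra.adjoin k s := by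
    intro n
    by_cases hn : n ∈ P.support
    · exact h1 n hn
    · rw [Polynomial.notMem_support_iff.1 hn]
      exact zero_mem _
  refine ⟨∑ n ∈ P.support, Polynomial.monomial n ⟨P.coeff n, h2 n⟩, ?_, ?_⟩
  · intro h0
    obtain ⟨m, hm⟩ := Polynomial.nonempty_support_iff.2 hP
    have h3 := congrArg (fun Q => Q.coeff m) h0
    simp only [Polynomial.finsetSum_coeff, Polynomial.coeff_monomial, Polynomial.coeff_zero] at h3
    rw [Finset.sum_ite_eq' P.support m, if_pos hm] at h3
    have h4 : (P.coeff m : Ω) = 0 := congrArg Subtype.val h3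
    exact Polynomial.mem_support_iff.1 hm (Subtype.ext h4)
  · rw [map_sum]
    refine Eq.trans ?_ hPx
    rw [Polynomial.aeval_def, Polynomial.eval₂_eq_sum, Polynomial.sum]
    refine Finset.sum_congr rfl fun n _ => ?_
    rw [Polynomial.aeval_monomial]
    rfl

/-- algebraicity over an independent family, by polynomials -/
theorem alg_iff {k A β : Type} [Field k] [Field A] [Algebra k A] {x : β → A}
    (hx : AlgebraicIndependent k x) (u : A) : IsAlgebraic (Algebra.adjoin k (Set.range x)) u ↔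
      ∃ P : Polynomial (MvPolynomial β k), P ≠ 0 ∧
        P.eval₂ ((aeval x : MvPolynomial β k →ₐ[k] A) : MvPolynomial β k →+* A) u = 0 := by
  have h0 : (algebraMap (Algebra.adjoin k (Set.range x)) A).comp
      (hx.aevalEquiv : MvPolynomial β k →+* Algebra.adjoin k (Set.range x)) =
      ((aeval x : MvPolynomial β k →ₐ[k] A) : MvPolynomial β k →+* A) := by
    refine RingHom.ext fun q => ?_
    exact hx.algebraMap_aevalEquiv q
  constructor
  · rintro ⟨Q, hQ, hQu⟩
    refine ⟨Q.map (hx.aevalEquiv.symm : Algebra.adjoin k (Set.range x) →+* MvPolynomial β k), ?_, ?_⟩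
    · rw [Ne, Polynomial.map_eq_zero_iff]
      · exact hQ
      · exact hx.aevalEquiv.symm.injective
    · rw [Polynomial.eval₂_map, ← hQu, Polynomial.aeval_def, ← h0]
      congr 1
      refine RingHom.ext fun q => ?_
      show algebraMap (Algebra.adjoin k (Set.range x)) A (hx.aevalEquiv (hx.aevalEquiv.symm q)) = _
      rw [AlgEquiv.apply_symm_apply]
  · rintro ⟨P, hP, hPu⟩
    refine ⟨P.map (hx.aevalEquiv : MvPolynomial β k →+* Algebra.adjoin k (Set.range x)), ?_, ?_⟩
    · rw [Ne, Polynomial.map_eq_zero_iff]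
      · exact hP
      · exact hx.aevalEquiv.injective
    · rw [Polynomial.aeval_def, Polynomial.eval₂_map, h0]
      exact hPu

/-- constants generate constants -/
theorem alg_const {k K : Type} [Field k] [Field K] [Algebra k ℂ] [Algebra k K] [Algebra ℂ K]
    [IsScalarTower k ℂ K] (s : Set K) (hs : s ⊆ Set.range (algebraMap ℂ K)) (x : K)
    (hx : IsAlgebraic (Algebra.adjoin k s) x) : IsAlgebraic ℂ x := by
  have h1 : Algebra.adjoin k s ≤ (⊥ : Subalgebra ℂ K).restrictScalars k := by
    refine Algebra.adjoin_le fun y hy => ?_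
    obtain ⟨z, hz⟩ := hs hy
    exact ⟨z, hz⟩
  have h2 : IsAlgebraic ((⊥ : Subalgebra ℂ K).restrictScalars k) x := by
    refine hx.ringHom_of_comp_eq (Subalgebra.inclusion h1 : _ →+* _) (RingHom.id K)
      (Subalgebra.inclusion_injective h1) ?_
    rfl
  exact Subalgebra.isAlgebraic_of_isAlgebraic_bot (R := ℂ) h2

/-- extension of embeddings to algebraic elements -/
theorem exists_hom {R₀ Ω K : Type} [CommRing R₀] [IsDomain R₀] [Field Ω] [Field K] [IsAlgClosed K]
    (a : R₀ →+* Ω) (b : R₀ →+* K) (ha : Function.Injective a) (hb : Function.Injective b) :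
    ∃ (S : Subring Ω) (φ : S →+* K) (a' : R₀ →+* S), Function.Injective φ ∧ S.subtype.comp a' = a ∧
      φ.comp a' = b ∧ (∀ x ∈ S, x⁻¹ ∈ S) ∧
      ∀ x, x ∈ S ↔ ∃ P : Polynomial R₀, P ≠ 0 ∧ P.eval₂ a x = 0 := by
  let _ : Algebra R₀ Ω := a.toAlgebra
  let _ : Algebra R₀ K := b.toAlgebra
  have i1 : FaithfulSMul R₀ Ω := (faithfulSMul_iff_algebraMap_injective R₀ Ω).2 ha
  have i2 : FaithfulSMul R₀ K := (faithfulSMul_iff_algebraMap_injective R₀ K).2 hb
  let S := Subalgebra.algebraicClosure R₀ Ω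
  let φ : S →ₐ[R₀] K := IsAlgClosed.lift
  let a' : R₀ →+* S := algebraMap R₀ S
  have hinj : ∀ x : S, φ x = 0 → x = 0 := by
    intro x h2
    by_contra hne
    obtain ⟨r, hr, y, hy⟩ := (Algebra.IsAlgebraic.isAlgebraic (R := R₀) x).exists_nonzero_dvd
      (mem_nonZeroDivisors_of_ne_zero hne)
    have h1 := congrArg φ hy
    rw [map_mul, AlgHom.commutes, h2, zero_mul] at h1
    exact hr (hb (h1.trans (map_zero b).symm))
  refine ⟨S.toSubring, (φ : S →+* K), a', ?_, rfl, ?_, ?_, fun x => Iff.rfl⟩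
  · exact (injective_iff_map_eq_zero (φ : S →+* K)).2 hinj
  · refine RingHom.ext fun r => ?_
    exact φ.commutes r
  · intro x hx
    exact IsAlgebraic.inv hx

/-- polynomials with nonzero derivative -/
theorem exists_sep {R₀ Ω : Type} [CommRing R₀] [IsDomain R₀] [CharZero R₀] [Field Ω]
    (a : R₀ →+* Ω) (ha : Function.Injective a) (x : Ω)
    (hx : ∃ P : Polynomial R₀, P ≠ 0 ∧ P.eval₂ a x = 0) :
    ∃ P : Polynomial R₀, P.eval₂ a x = 0 ∧ P.derivative.eval₂ a x ≠ 0 := by
  obtain ⟨P, hP, hPx⟩ := hx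
  induction hn : P.natDegree using Nat.strong_induction_on generalizing P with
  | _ n ih =>
    by_cases h : P.derivative.eval₂ a x = 0
    · have h0 : P.natDegree ≠ 0 := by
        intro h1
        rw [Polynomial.eq_C_of_natDegree_eq_zero h1, Polynomial.eval₂_C] at hPx
        have h2 : P.coeff 0 = 0 := ha (hPx.trans (map_zero a).symm)
        apply hP
        rw [Polynomial.eq_C_of_natDegree_eq_zero h1, h2, Polynomial.C_0]
      refine ih P.derivative.natDegree ?_ P.derivative ?_ h rfl
      · rw [← hn]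
        exact Polynomial.natDegree_derivative_lt h0
      · intro h1
        exact h0 (Polynomial.derivative_eq_zero.1 h1)
    · exact ⟨P, hPx, h⟩

section

variable {k K : Type} [Field k] [Field K] [Algebra ℂ K] {N : ℕ}

/-- the directional derivative of `h` at `p` -/
noncomputable def dd (p : Fin N → Kˣ) (δ : Fin N → K) (h : MvPolynomial (Fin N) ℂ) : K :=
  ∑ l, (p l : K) * hw (pderiv l h) p * δ l

theorem dd_add (p : Fin N → Kˣ) (δ : Fin N → K) (g h : MvPolynomial (Fin N) ℂ) :
    dd p δ (g + h) = dd p δ g + dd p δ h := by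
  simp only [dd, hw, map_add, mul_add, add_mul, Finset.sum_add_distrib]

theorem dd_C (p : Fin N → Kˣ) (δ : Fin N → K) (c : ℂ) : dd p δ (C c) = 0 := by
  simp [dd, hw]

theorem dd_mul (p : Fin N → Kˣ) (δ : Fin N → K) (g h : MvPolynomial (Fin N) ℂ) :
    dd p δ (g * h) = hw g p * dd p δ h + hw h p * dd p δ g := by
  simp only [dd, hw, Derivation.leibniz, smul_eq_mul, map_add, map_mul, Finset.mul_sum,
    ← Finset.sum_add_distrib]
  refine Finset.sum_congr rfl fun l _ => ?_
  ring

theorem dd_X (p : Fin N → Kˣ) (δ : Fin N → K) (l : Fin N) : dd p δ (X l) = p l * δ l := by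
  classical
  rw [dd, Finset.sum_eq_single l]
  · simp [hw]
  · intro m _ hm
    simp [hw, pderiv_X_of_ne hm.symm]
  · intro h
    exact absurd (Finset.mem_univ l) h

theorem dd_X_pow (p : Fin N → Kˣ) (δ : Fin N → K) (l : Fin N) (n : ℕ) :
    dd p δ (X l ^ n) = n * (p l : K) ^ (n - 1) * (p l * δ l) := by
  induction n with
  | zero =>
    have h := dd_C p δ 1
    rw [C_1] at h
    simpa using h
  | succ n ih =>
    rw [pow_succ, dd_mul, ih, dd_X]
    have h1 : hw (X l ^ n) p = (p l : K) ^ n := by simp [hw]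
    have h2 : hw (X l) p = (p l : K) := by simp [hw]
    rw [h1, h2]
    cases n with
    | zero => simp
    | succ n =>
      simp only [Nat.add_sub_cancel]
      push_cast
      ring

/-- polynomials in `X l` with coefficients in the variables of `B` -/
noncomputable def tau (ι : k →+* ℂ) {B : Finset (Fin N)} (l : Fin N)
    (P : Polynomial (MvPolynomial B k)) : MvPolynomial (Fin N) ℂ :=
  P.eval₂ (((rename Subtype.val : MvPolynomial B ℂ →ₐ[ℂ] MvPolynomial (Fin N) ℂ) :
    MvPolynomial B ℂ →+* MvPolynomial (Fin N) ℂ).comp (map ι)) (X l)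

theorem hw_tau (ι : k →+* ℂ) {B : Finset (Fin N)} (l : Fin N)
    (P : Polynomial (MvPolynomial B k)) (p : Fin N → Kˣ) :
    hw (tau ι l P) p = P.eval₂ (eval₂Hom ((algebraMap ℂ K).comp ι) fun b : B => (p b : K)) (p l) := by
  rw [hw, tau, ← AlgHom.coe_toRingHom, Polynomial.hom_eval₂]
  congr 1
  · refine MvPolynomial.ringHom_ext (fun c => ?_) fun b => ?_
    · simp
    · simp
  · simp

theorem dd_base (ι : k →+* ℂ) {B : Finset (Fin N)} (p : Fin N → Kˣ) (δ : Fin N → K)
    (hδ : ∀ b ∈ B, δ b = 0) (r : MvPolynomial B k) :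
    dd p δ (rename Subtype.val (map ι r)) = 0 := by
  induction r using MvPolynomial.induction_on with
  | C c => rw [map_C, rename_C, dd_C]
  | add f g hf hg => rw [map_add, map_add, dd_add, hf, hg, add_zero]
  | mul_X f b hf => rw [map_mul, map_mul, dd_mul, hf, map_X, rename_X, dd_X, hδ _ b.2]; simp

theorem dd_tau (ι : k →+* ℂ) {B : Finset (Fin N)} (l : Fin N)
    (P : Polynomial (MvPolynomial B k)) (p : Fin N → Kˣ) (δ : Fin N → K)
    (hδ : ∀ b ∈ B, δ b = 0) : dd p δ (tau ι l P) =
      P.derivative.eval₂ (eval₂Hom ((algebraMap ℂ K).comp ι) fun b : B => (p b : K)) (p l) *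
        (p l * δ l) := by
  induction P using Polynomial.induction_on' with
  | add f g hf hg =>
    have h1 : tau ι l (f + g) = tau ι l f + tau ι l g := Polynomial.eval₂_add _ _
    rw [h1, dd_add, hf, hg, Polynomial.derivative_add, Polynomial.eval₂_add, add_mul]
  | monomial n r =>
    have h1 : tau ι l (Polynomial.monomial n r) = rename Subtype.val (map ι r) * X l ^ n :=
      Polynomial.eval₂_monomial _ _
    have h2 : hw (rename Subtype.val (map ι r)) p =
        eval₂Hom ((algebraMap ℂ K).comp ι) (fun b : B => (p b : K)) r := by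
      rw [hw, aeval_rename, aeval_def, eval₂_map]
      rfl
    rw [h1, dd_mul, dd_base ι p δ hδ r, mul_zero, add_zero, dd_X_pow, h2,
      Polynomial.derivative_monomial, Polynomial.eval₂_monomial, map_mul, map_natCast]
    ring

end

/-- the exchange property in `K` -/
theorem exch {k K : Type} [Field k] [Field K] [Algebra k ℂ] [Algebra k K] [Algebra ℂ K]
    [IsScalarTower k ℂ K] (s : Set K) (hs : s ⊆ Set.range (algebraMap ℂ K)) (t u : K)
    (ht : Transcendental ℂ t) (hu : u ∈ Set.range (algebraMap ℂ K))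
    (h1 : IsAlgebraic (Algebra.adjoin k (insert t s)) u) : IsAlgebraic (Algebra.adjoin k s) u := by
  by_contra h2
  let M := AlgebraicIndependent.matroid k K
  have e1 : u ∈ M.closure (insert t s) := by
    rw [AlgebraicIndependent.matroid_closure_eq]
    exact h1
  have e2 : u ∉ M.closure s := by
    rw [AlgebraicIndependent.matroid_closure_eq]
    exact h2
  have e3 : t ∈ M.closure (insert u s) := (M.closure_exchange ⟨e1, e2⟩).1
  rw [AlgebraicIndependent.matroid_closure_eq] at e3
  exact ht (alg_const (insert u s) (Set.insert_subset hu hs) t e3)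

end Emb

open Emb in
theorem t_emb2 : S_EMB2 := by
  classical
  intro N I Ω _ _ ξ B i j f hI hiB hB halg htr hf K _ _ _ t ht
  -- the field of definition
  obtain ⟨G, hG⟩ : I.FG := IsNoetherian.noetherian I
  choose T hT hTl using fun l => alg_desc _ _ (halg l)
  obtain ⟨k, _, _, ι, hι0⟩ := exists_fld (((⋃ l, T l) ∪ ⋃ g ∈ G, (g.coeffs : Set ℂ)) ∪
      (f.coeffs : Set ℂ))
    (((Set.countable_iUnion fun l => (hT l).countable).union
      (G.countable_toSet.biUnion fun g _ => g.coeffs.countable_toSet)).union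
      f.coeffs.countable_toSet)
  have hι := Set.subset_union_left.trans hι0
  obtain ⟨f₀, hf₀⟩ : ∃ f₀, map ι f₀ = f :=
    mem_range_map_iff_coeffs_subset.2 (Set.subset_union_right.trans hι0)
  let _ : Algebra k ℂ := ι.toAlgebra
  let _ : Algebra k Ω := ((algebraMap ℂ Ω).comp ι).toAlgebra
  let _ : Algebra k K := ((algebraMap ℂ K).comp ι).toAlgebra
  have _ : IsScalarTower k ℂ Ω := IsScalarTower.of_algebraMap_eq' rfl
  have _ : IsScalarTower k ℂ K := IsScalarTower.of_algebraMap_eq' rfl
  have hTk : ∀ l, IsAlgebraic (Algebra.adjoin k ((fun b => (ξ b : Ω)) '' (B : Set (Fin N))))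
      (ξ l : Ω) := fun l => hTl l k (((Set.subset_iUnion T l).trans Set.subset_union_left).trans hι)
  have hGk : ∀ g ∈ G, ∃ g₀, map ι g₀ = g := by
    intro g hg
    have h1 : (g.coeffs : Set ℂ) ⊆ Set.range ι :=
      ((Set.subset_biUnion_of_mem (u := fun g : MvPolynomial (Fin N) ℂ => (g.coeffs : Set ℂ))
        hg).trans Set.subset_union_right).trans hι
    exact mem_range_map_iff_coeffs_subset.2 h1
  obtain ⟨c, hc⟩ := exists_indep k (Fin N)
  let y : Fin N → K := fun l => if l = i then t else algebraMap ℂ K (c l)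
  let s₀ : Set (Fin N) := (B : Set (Fin N)) \ {i}
  have hs₀ : insert i s₀ = (B : Set (Fin N)) := by
    rw [Set.insert_sdiff_singleton]
    exact Set.insert_eq_of_mem hiB
  have hxk : AlgebraicIndependent k (fun b : B => (ξ b : Ω)) := hB.restrictScalars ι.injective
  have hys : y '' s₀ ⊆ Set.range (algebraMap ℂ K) := by
    rintro _ ⟨l, hl, rfl⟩
    refine ⟨c l, ?_⟩
    have h1 : l ≠ i := hl.2
    simp [y, h1]
  have hcK : AlgebraicIndependent k (fun l => algebraMap ℂ K (c l)) :=
    hc.map' (f := IsScalarTower.toAlgHom k ℂ K) (algebraMap ℂ K).injective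
  have hyk0 : AlgebraicIndepOn k y s₀ := by
    have h1 := hcK.comp (fun b : s₀ => (b : Fin N)) Subtype.val_injective
    refine (iff_of_eq ?_).1 h1
    congr 1
    funext b
    have h2 : (b : Fin N) ≠ i := b.2.2
    simp [y, h2]
  have hyk1 : AlgebraicIndepOn k y (insert i s₀) := by
    refine hyk0.insert fun h => ht ?_
    have h1 : y i = t := by simp [y]
    rw [← h1]
    exact alg_const _ hys _ h
  have hyk : AlgebraicIndependent k (fun b : B => y b) := by
    rw [hs₀] at hyk1
    exact hyk1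
  -- the embedding
  let a : MvPolynomial B k →+* Ω := ((aeval (fun b : B => (ξ b : Ω)) : MvPolynomial B k →ₐ[k] Ω) : MvPolynomial B k →+* Ω)
  let b : MvPolynomial B k →+* K := ((aeval (fun b : B => y b) : MvPolynomial B k →ₐ[k] K) : MvPolynomial B k →+* K)
  have ha : Function.Injective a := hxk
  have hb : Function.Injective b := hyk
  obtain ⟨S, φ, a', hφ, hSa, hφb, hinv, hmem⟩ := exists_hom a b ha hb
  have hrange : (fun b => (ξ b : Ω)) '' (B : Set (Fin N)) = Set.range (fun b : B => (ξ b : Ω)) := by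
    ext x
    constructor
    · rintro ⟨l, hl, rfl⟩
      exact ⟨⟨l, hl⟩, rfl⟩
    · rintro ⟨l, rfl⟩
      exact ⟨l, l.2, rfl⟩
  have hpol : ∀ l, ∃ P : Polynomial (MvPolynomial B k), P ≠ 0 ∧ P.eval₂ a (ξ l) = 0 := by
    intro l
    have h1 := hTk l
    rw [hrange] at h1
    exact (alg_iff hxk _).1 h1
  have hξS : ∀ l, (ξ l : Ω) ∈ S := fun l => (hmem _).2 (hpol l)
  let ξ' : Fin N → Sˣ := fun l => ⟨⟨ξ l, hξS l⟩, ⟨(ξ l : Ω)⁻¹, hinv _ (hξS l)⟩,
    Subtype.ext (mul_inv_cancel₀ (ξ l).ne_zero), Subtype.ext (inv_mul_cancel₀ (ξ l).ne_zero)⟩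
  have hξ' : ∀ l, S.subtype (ξ' l) = ξ l := fun l => rfl
  let p : Fin N → Kˣ := fun l => Units.map (φ : S →* K) (ξ' l)
  have hp : ∀ l, (p l : K) = φ (ξ' l) := fun l => rfl
  have hpb : ∀ l (hl : l ∈ B), (p l : K) = y l := by
    intro l hl
    have h1 : a' (X ⟨l, hl⟩) = ξ' l := by
      apply S.subtype_injective
      have h2 := congrArg (fun f => f (X ⟨l, hl⟩)) hSa
      have h3 : a (X ⟨l, hl⟩) = ξ l := aeval_X _ _
      exact h2.trans h3
    have h2 := congrArg (fun f => f (X ⟨l, hl⟩)) hφb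
    have h3 : b (X ⟨l, hl⟩) = y l := aeval_X _ _
    rw [hp, ← h1]
    exact h2.trans h3
  -- polynomials over `k`
  have hz : ∀ H : MvPolynomial (Fin N) k, hw (map ι H) ξ = 0 ↔ hw (map ι H) p = 0 := by
    intro H
    have h1 : hw (map ι H) ξ = S.subtype (eval₂ (a'.comp C) (fun l => (ξ' l : S)) H) := by
      rw [hom_eval₂, hw, aeval_def, eval₂_map]
      congr 1
      rw [← RingHom.comp_assoc, hSa]
      refine RingHom.ext fun z => ?_
      show _ = aeval _ (C z)
      rw [aeval_C]
      rfl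
    have h2 : hw (map ι H) p = φ (eval₂ (a'.comp C) (fun l => (ξ' l : S)) H) := by
      rw [hom_eval₂, hw, aeval_def, eval₂_map]
      congr 1
      rw [← RingHom.comp_assoc, hφb]
      refine RingHom.ext fun z => ?_
      show _ = aeval _ (C z)
      rw [aeval_C]
      rfl
    rw [h1, h2, map_eq_zero_iff _ S.subtype_injective, map_eq_zero_iff _ hφ]
  have hea : ∀ (P : Polynomial (MvPolynomial B k)) (u : S), P.eval₂ a (u : Ω) = S.subtype (P.eval₂ a' u) := by
    intro P u
    rw [Polynomial.hom_eval₂, hSa]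
    rfl
  have heb : ∀ (P : Polynomial (MvPolynomial B k)) (u : S), P.eval₂ b (φ u) = φ (P.eval₂ a' u) := by
    intro P u
    rw [Polynomial.hom_eval₂, hφb]
  have hab : ∀ (P : Polynomial (MvPolynomial B k)) (u : S), P.eval₂ a (u : Ω) = 0 ↔ P.eval₂ b (φ u) = 0 := by
    intro P u
    rw [hea, heb, map_eq_zero_iff _ S.subtype_injective, map_eq_zero_iff _ hφ]
  have hpi : p i = t := by
    ext
    rw [hpb i hiB]
    simp [y]
  have hfp : hw f p ≠ 0 := by
    intro h
    rw [← hf₀] at h hf
    exact hf ((hz f₀).2 h)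
  refine ⟨p, fun h hh => ?_, hfp, hpi, fun D hD hDt l => ?_, fun m₁ m₂ hm e he => ?_⟩
  · have h1 : I ≤ RingHom.ker (aeval (fun l => (p l : K)) : MvPolynomial (Fin N) ℂ →ₐ[ℂ] K) := by
      rw [← hG, Ideal.span_le]
      intro g hg
      obtain ⟨g₀, rfl⟩ := hGk g hg
      refine (hz g₀).1 ((hI _).2 ?_)
      rw [← hG]
      exact Ideal.subset_span hg
    exact h1 hh
  · have hδ : ∀ b ∈ B, D.f (p b) = 0 := by
      intro l hl
      by_cases hli : l = i
      · rw [hli, hpi]
        exact hDt
      · have h1 : (p l : K) = algebraMap ℂ K (c l) := by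
          rw [hpb l hl]
          simp [y, hli]
        have h2 : c l ≠ 0 := by
          intro h0
          rw [h0, map_zero] at h1
          exact (p l).ne_zero h1
        have h3 : p l = cst K (Units.mk0 (c l) h2) := Units.ext h1
        rw [h3, D.cst']
    have _ : CharZero Ω := charZero_of_injective_algebraMap (algebraMap ℂ Ω).injective
    have _ : CharZero (MvPolynomial B k) := a.charZero
    obtain ⟨P, hP, hP'⟩ := exists_sep a ha (ξ l) (hpol l)
    have hmap : (eval₂Hom ((algebraMap ℂ Ω).comp ι) fun b : B => (ξ b : Ω)) = a :=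
      MvPolynomial.ringHom_ext (fun z => by simp [a]; rfl) fun l => by simp [a]
    have hmap' : (eval₂Hom ((algebraMap ℂ K).comp ι) fun b : B => (p b : K)) = b :=
      MvPolynomial.ringHom_ext (fun z => by simp [b]; rfl) fun l => by simp [b, hpb]
    have h1 : tau ι l P ∈ I := by
      rw [← hI, hw_tau, hmap]
      exact hP
    have h2 : dd p (fun l => D.f (p l)) (tau ι l P) = 0 := hD _ h1
    rw [dd_tau ι l P p _ hδ, hmap'] at h2
    have h3 : P.derivative.eval₂ b (p l) ≠ 0 := fun h => hP' ((hab P.derivative (ξ' l)).2 h)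
    exact (mul_eq_zero.1 ((mul_eq_zero.1 h2).resolve_left h3)).resolve_left (p l).ne_zero
  · -- the product of powers is not constant
    let f : Sˣ := ξ' i ^ m₁ * ξ' j ^ m₂
    have hf : ((f : S) : Ω) = ((ξ i ^ m₁ * ξ j ^ m₂ : Ωˣ) : Ω) := by
      have h1 : Units.map (S.subtype : S →* Ω) f = ξ i ^ m₁ * ξ j ^ m₂ := by
        rw [map_mul, map_zpow, map_zpow]
        congr 2 <;> exact Units.ext (hξ' _)
      rw [← h1]
      rfl
    have hf' : φ f = algebraMap ℂ K (e : ℂ) := by
      have h1 : Units.map (φ : S →* K) f = t ^ m₁ * p j ^ m₂ := by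
        rw [map_mul, map_zpow, map_zpow, ← hpi]
      have h2 := congrArg Units.val (h1.trans he)
      exact h2
    -- it is algebraic over `k [t, c]`
    obtain ⟨P, hP, hPf⟩ := (hmem (f : S)).1 (f : S).2
    have h1 : IsAlgebraic (Algebra.adjoin k (Set.range fun b : B => y b)) (φ f) :=
      (alg_iff hyk _).2 ⟨P, hP, (hab P f).1 hPf⟩
    have h2 : Set.range (fun b : B => y b) = insert (t : K) (y '' s₀) := by
      have e1 : Set.range (fun b : B => y b) = y '' (B : Set (Fin N)) := by
        ext x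
        constructor
        · rintro ⟨l, rfl⟩
          exact ⟨l, l.2, rfl⟩
        · rintro ⟨l, hl, rfl⟩
          exact ⟨⟨l, hl⟩, rfl⟩
      have e2 : y i = t := by simp [y]
      rw [e1, ← hs₀, Set.image_insert_eq, e2]
    rw [h2] at h1
    -- so it is algebraic over `k [c]`
    have h3 := exch (y '' s₀) hys (t : K) (φ f) ht ⟨_, hf'.symm⟩ h1
    have h4 : y '' s₀ = Set.range (fun b : s₀ => y b) := Set.image_eq_range _ _
    rw [h4] at h3
    obtain ⟨Q, hQ, hQf⟩ := (alg_iff hyk0 _).1 h3
    -- and the same holds in `Ω`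
    have hsub : s₀ ⊆ (B : Set (Fin N)) := Set.sdiff_subset
    let r : MvPolynomial s₀ k →+* MvPolynomial B k :=
      ((rename (fun b : s₀ => (⟨b, hsub b.2⟩ : B)) : MvPolynomial s₀ k →ₐ[k] MvPolynomial B k) : _ →+* _)
    have hbr : b.comp r = ((aeval (fun b : s₀ => y b) : MvPolynomial s₀ k →ₐ[k] K) : _ →+* _) :=
      MvPolynomial.ringHom_ext (fun z => by simp [b, r]) fun l => by simp [b, r]
    have har : a.comp r = ((aeval (fun b : s₀ => (ξ b : Ω)) : MvPolynomial s₀ ℂ →ₐ[ℂ] Ω) :
        MvPolynomial s₀ ℂ →+* Ω).comp (map ι) :=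
      MvPolynomial.ringHom_ext (fun z => by simp [a, r]; rfl) fun l => by simp [a, r]
    have h5 : (Q.map r).eval₂ b (φ f) = 0 := by
      rw [Polynomial.eval₂_map, hbr]
      exact hQf
    have h6 := (hab (Q.map r) f).2 h5
    rw [Polynomial.eval₂_map, har, ← Polynomial.eval₂_map, hf] at h6
    have hξ0 : AlgebraicIndependent ℂ (fun b : s₀ => (ξ b : Ω)) :=
      hB.comp (fun b : s₀ => (⟨b, hsub b.2⟩ : B)) fun b b' h => by
        have h' := congrArg Subtype.val h
        exact Subtype.ext h'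
    have h7 := (alg_iff hξ0 _).2 ⟨Q.map (map ι), by
      rw [Ne, Polynomial.map_eq_zero_iff (map_injective ι ι.injective)]
      exact hQ, h6⟩
    have h8 : (fun b => (ξ b : Ω)) '' ((B : Set (Fin N)) \ {i}) =
        Set.range (fun b : s₀ => (ξ b : Ω)) := Set.image_eq_range _ _
    rw [← h8] at h7
    exact htr m₁ m₂ hm h7

end Pool.Agent.Helper60.ZW
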