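import Pool.Agent.Helper60.ZW.Cst

/-!
# Zilber's conjecture and the powers of one subvariety: the generic point of a subvariety
-/

set_option autoImplicit false
set_option linter.unusedSectionVars false

namespace Pool.Agent.Helper60.ZW

open MvPolynomial Pool.Agent.R948

section alg

variable {F K : Type} [Field F] [Field K] [Algebra F K]

/-- the elements which are algebraic over a set -/
def Al (F : Type) {K : Type} [Field F] [Field K] [Algebra F K] (X : Set K) (x : K) : Prop :=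
  IsAlgebraic (Algebra.adjoin F X) x

theorem al_iff (X : Set K) (x : K) : Al F X x ↔ x ∈ (AlgebraicIndependent.matroid F K).closure X := by
  rw [AlgebraicIndependent.matroid_closure_eq]
  rfl

theorem Al.mono {X Y : Set K} (h : X ⊆ Y) {x : K} (hx : Al F X x) : Al F Y x := by
  rw [al_iff] at hx ⊢
  exact (AlgebraicIndependent.matroid F K).closure_subset_closure h hx

theorem al_mem {X : Set K} {x : K} (h : x ∈ X) : Al F X x :=
  isAlgebraic_algebraMap (⟨x, Algebra.subset_adjoin h⟩ : Algebra.adjoin F X)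

theorem Al.mul {X : Set K} {x y : Kˣ} (hx : Al F X (x : K)) (hy : Al F X (y : K)) :
    Al F X ((x * y : Kˣ) : K) := by
  rw [Units.val_mul]
  exact IsAlgebraic.mul hx hy

theorem Al.pow {X : Set K} {x : Kˣ} (hx : Al F X (x : K)) (n : ℕ) : Al F X ((x ^ n : Kˣ) : K) := by
  rw [Units.val_pow_eq_pow_val]
  exact IsAlgebraic.pow hx n

theorem Al.inv {X : Set K} {x : Kˣ} (hx : Al F X (x : K)) : Al F X ((x⁻¹ : Kˣ) : K) := by
  rw [Units.val_inv_eq_inv_val]
  exact IsAlgebraic.inv hx

theorem Al.zpow {X : Set K} {x : Kˣ} (hx : Al F X (x : K)) (n : ℤ) :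
    Al F X ((x ^ n : Kˣ) : K) := by
  cases n with
  | ofNat n => rw [Int.ofNat_eq_natCast, zpow_natCast]; exact hx.pow n
  | negSucc n => rw [zpow_negSucc]; exact (hx.pow _).inv

theorem Al.prod {X : Set K} {α : Type} (s : Finset α) (x : α → Kˣ)
    (h : ∀ a ∈ s, Al F X (x a : K)) : Al F X ((∏ a ∈ s, x a : Kˣ) : K) := by
  classical
  induction s using Finset.induction_on with
  | empty =>
    rw [Finset.prod_empty, Units.val_one]
    exact isAlgebraic_one
  | insert a s ha ih =>
    rw [Finset.prod_insert ha]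
    exact (h a (Finset.mem_insert_self a s)).mul
      (ih fun b hb => h b (Finset.mem_insert_of_mem hb))

theorem Al.of_zpow {X : Set K} {x : Kˣ} {n : ℤ} (hn : n ≠ 0) (h : Al F X ((x ^ n : Kˣ) : K)) :
    Al F X (x : K) := by
  have h1 : ∀ m : ℕ, 0 < m → Al F X ((x ^ m : Kˣ) : K) → Al F X (x : K) := by
    intro m hm h
    rw [Units.val_pow_eq_pow_val] at h
    exact IsAlgebraic.of_pow hm h
  cases n with
  | ofNat n =>
    rw [Int.ofNat_eq_natCast, zpow_natCast] at h
    exact h1 n (Nat.pos_of_ne_zero (by rintro rfl; exact hn rfl)) h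
  | negSucc n =>
    rw [zpow_negSucc] at h
    have h2 := h.inv
    rw [inv_inv] at h2
    exact h1 _ (Nat.succ_pos n) h2

/-- an element which is algebraic over all complements of points of an independent set is algebraic -/
theorem al_empty {X : Set K} (hX : X.Nonempty) (hI : (AlgebraicIndependent.matroid F K).Indep X)
    (x : K) (h : ∀ b ∈ X, Al F (X \ {b}) x) : Al F ∅ x := by
  have hne := hX.coe_sort
  rw [al_iff]
  have h1 := Matroid.Indep.closure_iInter_eq_biInter_closure_of_forall_subset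
    (M := AlgebraicIndependent.matroid F K) (Js := fun b : X => X \ {(b : K)}) hI
    (fun b => Set.sdiff_subset)
  have h2 : (⋂ b : X, X \ {(b : K)}) = ∅ := by
    rw [Set.eq_empty_iff_forall_notMem]
    intro y hy
    rw [Set.mem_iInter] at hy
    have hyX : y ∈ X := (hy ⟨_, hX.some_mem⟩).1
    exact (hy ⟨y, hyX⟩).2 rfl
  rw [h2] at h1
  rw [h1, Set.mem_iInter]
  intro b
  rw [← al_iff]
  exact h b b.2

theorem al_empty_alg {x : K} (h : Al F (∅ : Set K) x) : IsAlgebraic F x := by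
  have h1 : (Algebra.adjoin F (∅ : Set K)).IsAlgebraic :=
    Algebra.isAlgebraic_adjoin_iff.2 fun y hy => hy.elim
  have h2 : Algebra.IsAlgebraic F (Algebra.adjoin F (∅ : Set K)) :=
    (Subalgebra.isAlgebraic_iff _).1 h1
  exact IsAlgebraic.restrictScalars F h

theorem al_empty_const [IsAlgClosed F] {x : Kˣ} (h : Al F (∅ : Set K) (x : K)) :
    ∃ c : Fˣ, x = uo K c := by
  obtain ⟨ξ, hξ⟩ := mem_range_of_integral (al_empty_alg h).isIntegral
  have h2 : ξ ≠ 0 := by
    rintro rfl
    rw [map_zero] at hξ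
    exact x.ne_zero hξ
  exact ⟨Units.mk0 ξ h2, Units.ext hξ⟩

end alg

theorem mon_single {ι G : Type} [Fintype ι] [DecidableEq ι] [CommGroup G] (z : ι → G) (j : ι) :
    mon z (Pi.single j 1) = z j := by
  rw [mon, Finset.prod_eq_single j]
  · simp
  · intro b _ hb
    simp [Pi.single_eq_of_ne hb]
  · simp

/-- if every coordinate is (up to powers and constants) a monomial in the coordinates of `B`, the
constant characters have corank at most `|B|` -/
theorem card_le_of_forall {N : ℕ} {K : Type} [Field K] [Algebra ℂ K] (ξ : Fin N → Kˣ)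
    (B : Finset (Fin N))
    (h : ∀ j, ∃ (m : ℤ) (a : Fin N → ℤ), (∀ l, l ∉ B → a l = 0) ∧
      (∃ c : ℂˣ, ξ j ^ m * mon ξ a = uo K c) ∧ m ≠ 0) :
    N ≤ B.card + Module.finrank ℚ (crel ℂ ξ) := by
  classical
  let T : Submodule ℚ (Fin N → ℚ) := Submodule.span ℚ (B.image (fun b => Pi.single b (1 : ℚ)))
  have hT : Module.finrank ℚ T ≤ B.card :=
    (finrank_span_finset_le_card _).trans Finset.card_image_le
  have hsingle : ∀ j, (Pi.single j (1 : ℚ) : Fin N → ℚ) ∈ T ⊔ crel ℂ ξ := by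
    intro j
    obtain ⟨m, a, ha, ⟨c, hc⟩, hm⟩ := h j
    have h1 : (fun i => ((m • (Pi.single j 1 : Fin N → ℤ) + a) i : ℚ)) ∈ crel ℂ ξ := by
      rw [crel_int]
      refine ⟨c, ?_⟩
      rw [mon_add, mon_smul, mon_single, hc]
    have h2 : (fun i => (a i : ℚ)) ∈ T := by
      have h3 : (fun i => (a i : ℚ)) = ∑ b ∈ B, (a b : ℚ) • (Pi.single b (1 : ℚ) : Fin N → ℚ) := by
        funext l
        rw [Finset.sum_apply]
        by_cases hl : l ∈ B
        · rw [Finset.sum_eq_single l]
          · simp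
          · intro b _ hb
            simp [Pi.single_eq_of_ne hb.symm]
          · intro h
            exact absurd hl h
        · rw [ha l hl, Finset.sum_eq_zero]
          · simp
          · intro b hb
            have : l ≠ b := by rintro rfl; exact hl hb
            simp [Pi.single_eq_of_ne this]
      rw [h3]
      refine Submodule.sum_mem _ fun b hb => T.smul_mem _ (Submodule.subset_span ?_)
      exact Finset.mem_coe.2 (Finset.mem_image_of_mem _ hb)
    have h3 : (m : ℚ) • (Pi.single j (1 : ℚ) : Fin N → ℚ) =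
        (fun i => ((m • (Pi.single j 1 : Fin N → ℤ) + a) i : ℚ)) - fun i => (a i : ℚ) := by
      funext l
      by_cases hl : l = j
      · subst hl
        simp
      · simp [Pi.single_eq_of_ne hl]
    have h4 : (m : ℚ) • (Pi.single j (1 : ℚ) : Fin N → ℚ) ∈ T ⊔ crel ℂ ξ := by
      rw [h3]
      exact Submodule.sub_mem _ (Submodule.mem_sup_right h1) (Submodule.mem_sup_left h2)
    have hm' : (m : ℚ) ≠ 0 := by exact_mod_cast hm
    exact ((T ⊔ crel ℂ ξ).smul_mem_iff hm').1 h4
  have htop : T ⊔ crel ℂ ξ = ⊤ := by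
    rw [eq_top_iff]
    intro v _
    have h1 : v = ∑ j, v j • (Pi.single j (1 : ℚ) : Fin N → ℚ) := by
      funext l
      rw [Finset.sum_apply, Finset.sum_eq_single l]
      · simp
      · intro b _ hb
        simp [Pi.single_eq_of_ne hb.symm]
      · simp
    rw [h1]
    exact Submodule.sum_mem _ fun j _ => Submodule.smul_mem _ _ (hsingle j)
  have h1 := Submodule.finrank_add_le_finrank_add_finrank T (crel ℂ ξ)
  rw [htop, finrank_top, Module.finrank_pi, Fintype.card_fin] at h1
  omega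

theorem t_gen : S_GEN := by
  classical
  intro N W hW hc
  obtain ⟨x₀, hx₀⟩ := hW.nonempty
  obtain ⟨B, hB, hind, halg⟩ := exists_td ℂ (un (toTP hW).pt)
  obtain ⟨Ω, iΩ, iA, ξ, hξ, hB, hind, halg, hcr⟩ : ∃ (Ω : Type) (_ : Field Ω) (_ : Algebra ℂ Ω)
      (ξ : Fin N → Ωˣ), (∀ h : MvPolynomial (Fin N) ℂ, aeval (un ξ) h = 0 ↔ h ∈ van W) ∧
      B.card = vdim W ∧ AlgebraicIndependent ℂ (fun b : B => un ξ b) ∧
      (∀ l, Al ℂ (un ξ '' (B : Set (Fin N))) (un ξ l)) ∧
      (N ≤ B.card + Module.finrank ℚ (crel ℂ ξ) → W = cst (crel ℂ ξ) x₀) := by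
    refine ⟨(toTP hW).fld, inferInstance, inferInstance, (toTP hW).pt, ?_, ?_, hind, halg, ?_⟩
    · exact fun h => (toTP hW).aeval_pt_eq_zero h
    · rw [hB, TP.td_pt, vdim_eq hW]
    · intro h
      refine eq_cst_of_le hW _ x₀ (subset_cst hW hx₀) ?_
      rw [Fintype.card_fin, vdim_eq hW, ← TP.td_pt, ← hB]
      exact h
  -- the coordinate `j`
  obtain ⟨j, hj⟩ : ∃ j, ∀ (m : ℤ) (a : Fin N → ℤ), (∀ l, l ∉ B → a l = 0) →
      (∃ c : ℂˣ, ξ j ^ m * mon ξ a = uo Ω c) → m = 0 := by
    by_contra hcon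
    push Not at hcon
    apply hc
    rw [hcr (card_le_of_forall ξ B hcon)]
    exact isCoset_cst _ _
  have hBne : B.Nonempty := by
    rw [Finset.nonempty_iff_ne_empty]
    rintro rfl
    have h1 := halg j
    rw [Finset.coe_empty, Set.image_empty] at h1
    obtain ⟨c, hc⟩ := al_empty_const h1
    have h2 := hj 1 0 (fun _ _ => rfl) ⟨c, by rw [mon_zero, mul_one, zpow_one, hc]⟩
    exact one_ne_zero h2
  obtain ⟨X, hX⟩ : ∃ X : Set Ω, X = un ξ '' (B : Set (Fin N)) := ⟨_, rfl⟩
  have hXI : (AlgebraicIndependent.matroid ℂ Ω).Indep X := by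
    have h1 : AlgebraicIndepOn ℂ id (Set.range (fun i : B => un ξ i)) := hind.to_subtype_range
    have h2 : X = Set.range (fun i : B => un ξ i) := by
      rw [hX]
      ext y
      simp
    rw [h2]
    exact h1
  have hinj : ∀ b ∈ B, ∀ b' ∈ B, un ξ b = un ξ b' → b = b' := by
    intro b hb b' hb' h
    exact congrArg Subtype.val (hind.injective (a₁ := ⟨b, hb⟩) (a₂ := ⟨b', hb'⟩) h)
  have himg : ∀ b ∈ B, un ξ '' ((B : Set (Fin N)) \ {b}) ⊆ X \ {un ξ b} := by
    rintro b hb _ ⟨b', ⟨hb', hne⟩, rfl⟩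
    rw [hX]
    refine ⟨⟨b', hb', rfl⟩, fun h => hne ?_⟩
    exact hinj b' hb' b hb h
  obtain ⟨i, hi, H⟩ : ∃ i ∈ B, ∀ a m : ℤ, (a ≠ 0 ∨ m ≠ 0) →
      ¬ Al ℂ (un ξ '' ((B : Set (Fin N)) \ {i})) ((ξ i ^ a * ξ j ^ m : Ωˣ) : Ω) := by
    by_contra hcon
    push Not at hcon
    choose! a m hne hal using hcon
    have hm : ∀ b ∈ B, m b ≠ 0 := by
      intro b hb h0
      have h1 := hal b hb
      have ha : a b ≠ 0 := (hne b hb).resolve_right fun h => h h0
      rw [h0, zpow_zero, mul_one] at h1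
      have h2 := (Al.of_zpow ha h1).mono (himg b hb)
      rw [al_iff] at h2
      refine hXI.notMem_closure_sdiff_of_mem (e := un ξ b) ?_ h2
      rw [hX]
      exact ⟨b, hb, rfl⟩
    let n : Fin N → ℤ := fun b => ∏ b' ∈ B.erase b, m b'
    let f : Ωˣ := ξ j ^ (∏ b ∈ B, m b) * ∏ b ∈ B, (ξ b ^ a b) ^ n b
    have hf : ∀ b ∈ B, Al ℂ (un ξ '' ((B : Set (Fin N)) \ {b})) (f : Ω) := by
      intro b hb
      have e1 : f = (ξ b ^ a b * ξ j ^ m b) ^ n b * ∏ b' ∈ B.erase b, (ξ b' ^ a b') ^ n b' := by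
        have e2 : ∏ b ∈ B, m b = m b * n b := (Finset.mul_prod_erase B m hb).symm
        have e3 := (Finset.mul_prod_erase B (fun b' => (ξ b' ^ a b') ^ n b') hb).symm
        simp only [f]
        rw [e2, e3, zpow_mul, mul_zpow]
        exact (mul_left_comm _ _ _).trans (mul_assoc _ _ _).symm
      rw [e1]
      refine ((hal b hb).zpow _).mul (Al.prod _ _ fun b' hb' => ?_)
      rw [Finset.mem_erase] at hb'
      have h1 : Al ℂ (un ξ '' ((B : Set (Fin N)) \ {b})) (ξ b' : Ω) :=
        al_mem (show un ξ b' ∈ un ξ '' ((B : Set (Fin N)) \ {b}) from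
          ⟨b', ⟨hb'.2, hb'.1⟩, rfl⟩)
      exact (h1.zpow _).zpow _
    have hf2 : Al ℂ (∅ : Set Ω) (f : Ω) := by
      refine al_empty (X := X) ?_ hXI _ ?_
      · obtain ⟨b, hb⟩ := hBne
        exact ⟨un ξ b, by rw [hX]; exact ⟨b, hb, rfl⟩⟩
      · intro y hy
        rw [hX] at hy
        obtain ⟨b, hb, rfl⟩ := hy
        exact (hf b hb).mono (himg b hb)
    obtain ⟨c, hc⟩ := al_empty_const hf2
    have h1 := hj (∏ b ∈ B, m b) (fun l => if l ∈ B then a l * n l else 0)
      (fun l hl => if_neg hl) ⟨c, by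
        rw [← hc]
        simp only [f]
        congr 1
        rw [mon, ← Finset.prod_subset (Finset.subset_univ B)]
        · refine Finset.prod_congr rfl fun b hb => ?_
          rw [if_pos hb, zpow_mul]
        · intro b _ hb
          rw [if_neg hb, zpow_zero]⟩
    exact Finset.prod_ne_zero_iff.2 hm h1
  exact ⟨Ω, iΩ, iA, ξ, B, i, j, hξ, hi, hind, halg, fun a m h => H a m h⟩

end Pool.Agent.Helper60.ZW
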