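import Pool.Agent.Helper60.ZW.P7

/-!
# From a special place to an unbalanced correspondence: the construction
-/

set_option autoImplicit false

namespace Pool.Agent.Helper60.ZW

open Pool.Agent.R948 Pool.Agent.Helper60.ZC Pool.Agent.Helper60.ZH

section

open Polynomial

theorem cl_zpow {L : Type} [Field L] [Algebra ℂ L] {N : ℕ} {H : Gd N}
    {A : Set Lˣ} {x : Lˣ} (hx : x ∈ Cl H A) (n : ℤ) : x ^ n ∈ Cl H A := by
  have hpow : ∀ m : ℕ, x ^ m ∈ Cl H A := by
    intro m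
    induction m with
    | zero => rw [pow_zero]; exact cl_one
    | succ m ih => rw [pow_succ]; exact cl_mul ih hx
  obtain ⟨m, rfl | rfl⟩ := Int.eq_nat_or_neg n
  · rw [zpow_natCast]
    exact hpow m
  · rw [zpow_neg, zpow_natCast]
    exact cl_inv (hpow m)

theorem prod_R_zero {K : Type} [Field K] [Algebra ℂ K] (P : Plc K) (s : Multiset K)
    (h : ∀ x ∈ s, ∃ a, P.R x a) (h0 : ∃ x ∈ s, P.R x 0) : P.R s.prod 0 := by
  classical
  have hfin : ∀ s : Multiset K, (∀ x ∈ s, ∃ a, P.R x a) → ∃ a, P.R s.prod a := by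
    intro s
    induction s using Multiset.induction_on with
    | empty => intro _; exact ⟨1, by rw [Multiset.prod_zero]; exact P.one⟩
    | cons x s ih =>
      intro h
      obtain ⟨a, ha⟩ := h x (Multiset.mem_cons_self x s)
      obtain ⟨b, hb⟩ := ih fun y hy => h y (Multiset.mem_cons_of_mem hy)
      exact ⟨a * b, by rw [Multiset.prod_cons]; exact P.mul _ _ _ _ ha hb⟩
  obtain ⟨x, hx, hx0⟩ := h0
  obtain ⟨s', rfl⟩ := Multiset.exists_cons_of_mem hx
  obtain ⟨b, hb⟩ := hfin s' fun y hy => h y (Multiset.mem_cons_of_mem hy)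
  have h1 := P.mul _ _ _ _ hx0 hb
  rwa [zero_mul, ← Multiset.prod_cons] at h1

theorem nc_zpow_mul {K : Type} [Field K] [Algebra ℂ K] {u : Kˣ} (hu : NC u) (κ : ℂˣ) {k : ℕ}
    (hk : k ≠ 0) : NC (cst K κ * u ^ k) := by
  refine NC.cst_mul ?_ κ
  intro c hc
  apply hu.transc
  refine IsAlgebraic.of_pow (Nat.pos_of_ne_zero hk) ?_
  have h1 : (u : K) ^ k = algebraMap ℂ K c := by
    rw [← Units.val_pow_eq_pow_val, hc]
    rfl
  rw [h1]
  exact isAlgebraic_algebraMap _

/-- **the unbalanced correspondence** -/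
theorem exists_unb {K : Type} [Field K] [Algebra ℂ K] [IsAlgClosed K] {t : K}
    (ht : Transcendental ℂ t) (halg : ∀ y : K, IsAlgebraic (Algebra.adjoin ℂ {t}) y) {N : ℕ}
    {H : Gd N} {u z : Kˣ} (hu : NC u) (hz : NC z) (huz : z ∈ Cl H {u})
    (P₀ : Plc K) (hP1 : P₀.Unt (u : K)) (hP2 : P₀.Spc (z : K)) :
    ∃ (F : ℂ[X][X]) (w : Kˣ), Irreducible F ∧ F.natDegree ≠ 0 ∧ ¬ Balanced F ∧ NC w ∧
      ∀ z' : Kˣ, (py F (w : K)).eval (z' : K) = 0 → z' ∈ Cl H {w} := by
  classical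
  have halg' : ∀ w : K, Transcendental ℂ w → ∀ y : K, IsAlgebraic (Algebra.adjoin ℂ {w}) y :=
    fun w hw => alg_of_nc ht halg hw
  have hut := hu.transc
  have hzt := hz.transc
  have hu0 := u.ne_zero
  have hz0 := z.ne_zero
  obtain ⟨F₀, hF₀, hd₀, h00, hr₀⟩ := exists_irr hut hz0 (halg' _ hut z)
  obtain ⟨D, hD⟩ : ∃ D : ℕ, ∀ i, (F₀.coeff i).natDegree ≤ D := by
    refine ⟨F₀.support.sup fun i => (F₀.coeff i).natDegree, fun i => ?_⟩
    by_cases hi : i ∈ F₀.support
    · exact Finset.le_sup (f := fun i => (F₀.coeff i).natDegree) hi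
    · rw [notMem_support_iff.1 hi, natDegree_zero]
      exact Nat.zero_le _
  obtain ⟨k₀, hk₀⟩ := key t_new t_res h00 hD hz0 hut hr₀ (halg' _ hut z)
  obtain ⟨b₀, hb₀, hub₀⟩ := hP1
  set k := k₀ + 1 with hkdef
  have hk0 : k ≠ 0 := Nat.succ_ne_zero _
  set κ : ℂ := b₀ * (b₀ ^ k)⁻¹ with hκdef
  have hκ : κ ≠ 0 := mul_ne_zero hb₀ (inv_ne_zero (pow_ne_zero _ hb₀))
  have hκb : κ * b₀ ^ k = b₀ := by
    rw [hκdef, mul_assoc, inv_mul_cancel₀ (pow_ne_zero _ hb₀), mul_one]
  let uk : Kˣ := cst K (Units.mk0 κ hκ) * u ^ k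
  have huk : (uk : K) = algebraMap ℂ K κ * (u : K) ^ k := by
    rw [Units.val_mul, cst_val, Units.val_pow_eq_pow_val]
    rfl
  have hukn : NC uk := nc_zpow_mul hu _ hk0
  obtain ⟨τ, hτ⟩ := exists_emb (L := K) hut (halg' _ hut) hukn.transc
  rw [huk] at hτ
  have hub₁ : (P₀.comap τ).R (u : K) b₀ := by
    change P₀.R (τ u) b₀
    rw [hτ]
    have h1 := P₀.smul (P₀.pow hub₀ k) κ
    rwa [hκb] at h1
  have hspec := special_root hz0 hr₀ hub₀ hP2
  obtain ⟨z₁, hz₁0, hz₁r, hz₁s⟩ := exists_spc_root hF₀ hd₀ h00 hut hub₁ hspec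
  obtain ⟨φ', hφ'u, hφ'z⟩ := exists_conj hF₀ hd₀ hut (halg' _ hut) hr₀ hz₁r
  let P₂ : Plc K := P₀.comap (τ.comp φ')
  have hub₂ : P₂.R (u : K) b₀ := by
    change P₀.R (τ (φ' u)) b₀
    rw [hφ'u]
    exact hub₁
  have hs₂ : P₂.Spc (z : K) := by
    rcases hz₁s with h | h
    · refine Or.inl ?_
      change P₀.R (τ (φ' z)) 0
      rw [hφ'z]
      exact h
    · refine Or.inr ?_
      change P₀.R (τ (φ' (z : K)⁻¹)) 0
      rw [map_inv₀, hφ'z]
      exact h
  set Q := F₀.natDegree.factorial with hQdef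
  have hQ : Q ≠ 0 := F₀.natDegree.factorial_ne_zero
  obtain ⟨p, hp, hpu⟩ := new_at t_new hF₀.ne_zero hD P₀ hz0 hut hr₀ hb₀ hub₀
  obtain ⟨p'', hp'', hpu''⟩ := new_at t_new hF₀.ne_zero hD P₂ hz0 hut hr₀ hb₀ hub₂
  have hp0 : p ≠ 0 := by
    rintro rfl
    rw [neg_zero, zpow_zero, mul_one] at hpu
    exact (hP2.pow hQ).not_unt hpu
  have hp''0 : p'' ≠ 0 := by
    rintro rfl
    rw [neg_zero, zpow_zero, mul_one] at hpu''
    exact (hs₂.pow hQ).not_unt hpu''
  -- the new element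
  let z'' : Kˣ := Units.map ((τ.comp φ' : K →ₐ[ℂ] K) : K →* K) z
  have hz'' : (z'' : K) = τ (φ' z) := rfl
  let W : Kˣ := z'' ^ p * z ^ (-p'')
  have hWv : (W : K) = τ (φ' z) ^ p * (z : K) ^ (-p'') := by
    rw [Units.val_mul, Units.val_zpow_eq_zpow_val, Units.val_zpow_eq_zpow_val, hz'']
  have hβ : -p'' ≠ 0 := neg_ne_zero.2 hp''0
  have hβA : |(-p'')| ≤ (D * F₀.natDegree.factorial : ℕ) := by rw [abs_neg]; exact hp''
  -- it is a unit at `P₀`
  have hWu : P₀.Unt (W : K) := by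
    obtain ⟨g, hg, hgmu⟩ := mu_pow (P := P₀) (κ := κ) (k := k) (b' := b₀) hb₀ hκb.symm hκ hub₀
    have hkC : (k : ℂ) ≠ 0 := Nat.cast_ne_zero.2 hk0
    have hgu : P₀.Unt g := ⟨k, hkC, hg⟩
    have hm0 : mu (u : K) b₀ ≠ 0 := mu_ne hut hb₀
    have hpu2 : P₀.Unt (τ (φ' z) ^ Q * (mu (u : K) b₀ * g) ^ (-p'')) := by
      obtain ⟨a, ha, h1⟩ := hpu''
      refine ⟨a, ha, ?_⟩
      have h2 : P₀.R (τ (φ' ((z : K) ^ Q * mu (u : K) b₀ ^ (-p'')))) a := h1
      rw [map_mul, map_mul, map_pow, map_pow, map_zpow₀, map_zpow₀, mu_map, mu_map, hφ'u, hτ,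
        hgmu] at h2
      exact h2
    have hid := expo_id (x := τ (φ' z)) (y := (z : K)) (m := mu (u : K) b₀) (g := g)
      (m' := mu (u : K) b₀ * g) hm0 hgu.ne_zero Q 1 p (-p'') p p'' (by rw [zpow_one, mul_comm])
    have he : 1 * (p * p'') + -p'' * p = 0 := by ring
    rw [he, zpow_zero, mul_one] at hid
    have h1 : P₀.Unt ((W : K) ^ Q) := by
      rw [hWv, hid]
      exact ((hpu2.zpow _).mul (hpu.zpow _)).mul (hgu.zpow _)
    rcases Plc.unt_or_spc (P := P₀) W.ne_zero with h | h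
    · exact h
    · exact absurd h1 (h.pow hQ).not_unt
  obtain ⟨c, hc, hWc⟩ := hWu
  have hkey : ∀ P₁ P₂ : Plc K, ∀ c' : ℂ, c' ≠ 0 → P₁.R (W : K) c' → P₂.R (W : K) c' →
      P₁.R (z : K) 0 → P₂.R (z : K)⁻¹ 0 → False := by
    intro P₁ P₂ c' hc' h1 h2 h3 h4
    rw [hWv] at h1 h2
    exact hk₀ k (Nat.le_succ _) κ hκ (AlgHom.id ℂ K) φ' τ rfl hφ'u hτ p (-p'') hβ hp hβA c' hc'
      P₁ P₂ h1 h2 h3 h4
  have hWn : NC W := by
    intro c' hc'
    have hWP : ∀ P : Plc K, P.R (W : K) c' := by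
      intro P
      rw [hc', cst_val]
      exact P.const _
    obtain ⟨P₁, h1⟩ := t_ex K (z : K) hzt (halg' _ hzt)
    have hzi : Transcendental ℂ (z : K)⁻¹ := by
      intro h
      apply hzt
      have h2 := h.inv
      rwa [inv_inv] at h2
    obtain ⟨P₂, h2⟩ := t_ex K (z : K)⁻¹ hzi (halg' _ hzi)
    exact hkey P₁ P₂ c' c'.ne_zero (hWP _) (hWP _) h1 h2
  have hWt := hWn.transc
  -- the closure
  have hz''c : z'' ∈ Cl H {uk} := cl_map' (τ.comp φ') huz rfl (by
    change τ (φ' u) = uk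
    rw [hφ'u, hτ, huk])
  have hukc : uk ∈ Cl H {u} := by
    refine cl_mul (cl_cst _) ?_
    have h1 := cl_zpow (cl_self' (H := H) u) k
    rwa [zpow_natCast] at h1
  have hWcl : W ∈ Cl H {u} := cl_mul (cl_zpow (cl_trans hukc hz''c) _) (cl_zpow huz _)
  have hzW : z ∈ Cl H {W} := cl_trans (exchange hu hWn hWcl) huz
  -- the irreducible equation
  obtain ⟨F, hF, hd, h0, hr⟩ := exists_irr hWt hz0 (halg' _ hWt z)
  have hinj := aeval_inj hWt
  have hl : F.leadingCoeff ≠ 0 := leadingCoeff_ne_zero.2 hF.ne_zero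
  have hlW : (aeval (W : K) : ℂ[X] →ₐ[ℂ] K) F.leadingCoeff ≠ 0 :=
    fun h => hl (hinj (by rw [map_zero]; exact h))
  have h0W : (aeval (W : K) : ℂ[X] →ₐ[ℂ] K) (F.coeff 0) ≠ 0 :=
    fun h => h0 (hinj (by rw [map_zero]; exact h))
  have hne : px F (W : K) ≠ 0 := by
    intro h
    have h1 : (px F (W : K)).coeff 0 = 0 := by rw [h, coeff_zero]
    rw [px, coeff_map] at h1
    exact h0W h1
  refine ⟨F, W, hF, hd, ?_, hWn, fun z' hz' => ?_⟩
  · intro hbal
    have hlc : (px F (W : K)).leadingCoeff = aeval (W : K) F.leadingCoeff := by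
      rw [px]
      exact leadingCoeff_map_of_leadingCoeff_ne_zero _ hlW
    have hc0 : (px F (W : K)).coeff 0 = aeval (W : K) (F.coeff 0) := by
      rw [px, coeff_map]
      rfl
    have hprod := (IsAlgClosed.splits (px F (W : K))).coeff_zero_eq_leadingCoeff_mul_prod_roots
    rw [hc0, hlc] at hprod
    have hWpow : ∀ m : ℕ, P₀.Unt ((W : K) ^ m) := fun m => Plc.Unt.pow ⟨c, hc, hWc⟩ m
    have hsign : P₀.Unt ((-1 : K) ^ (px F (W : K)).natDegree) := by
      have h1 : P₀.Unt (algebraMap ℂ K (-1)) := Plc.Unt.const (by norm_num)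
      rw [map_neg, map_one] at h1
      exact h1.pow _
    have hPr : P₀.Unt (px F (W : K)).roots.prod := by
      obtain ⟨c', m, h | h⟩ := hbal
      · have hc' : c' ≠ 0 := by
          rintro rfl
          rw [C_0, zero_mul, zero_mul] at h
          exact h0 h
        have h1 : (aeval (W : K) : ℂ[X] →ₐ[ℂ] K) (F.coeff 0) =
            algebraMap ℂ K c' * (W : K) ^ m * aeval (W : K) F.leadingCoeff := by
          rw [h, map_mul, map_mul, aeval_C, map_pow, aeval_X]
        rw [h1] at hprod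
        have h2 : algebraMap ℂ K c' * (W : K) ^ m =
            (-1) ^ (px F (W : K)).natDegree * (px F (W : K)).roots.prod := by
          apply mul_right_cancel₀ hlW
          rw [hprod]
          ring
        have h3 : P₀.Unt (algebraMap ℂ K c' * (W : K) ^ m) :=
          (Plc.Unt.const hc').mul (hWpow m)
        rw [h2] at h3
        exact unt_cancel h3 hsign
      · have hc' : c' ≠ 0 := by
          rintro rfl
          rw [C_0, zero_mul, zero_mul] at h
          exact hl h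
        have h1 : (aeval (W : K) : ℂ[X] →ₐ[ℂ] K) F.leadingCoeff =
            algebraMap ℂ K c' * (W : K) ^ m * aeval (W : K) (F.coeff 0) := by
          conv_lhs => rw [h]
          rw [map_mul, map_mul, aeval_C, map_pow, aeval_X]
        rw [h1] at hprod
        have h2 : (1 : K) = (algebraMap ℂ K c' * (W : K) ^ m) *
            ((-1) ^ (px F (W : K)).natDegree * (px F (W : K)).roots.prod) := by
          apply mul_right_cancel₀ h0W
          rw [one_mul]
          conv_lhs => rw [hprod]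
          ring
        have h3 : P₀.Unt ((algebraMap ℂ K c' * (W : K) ^ m) *
            ((-1) ^ (px F (W : K)).natDegree * (px F (W : K)).roots.prod)) := by
          rw [← h2]
          exact Plc.Unt.one
        exact unt_cancel (unt_cancel h3 ((Plc.Unt.const hc').mul (hWpow m))) hsign
    have hzr : (z : K) ∈ (px F (W : K)).roots := (mem_roots hne).2 hr
    have hconj : ∀ x ∈ (px F (W : K)).roots, ∃ σ : K →ₐ[ℂ] K, σ (W : K) = W ∧ σ (z : K) = x := by
      intro x hx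
      exact exists_conj hF hd hWt (halg' _ hWt) hr ((mem_roots hne).1 hx)
    rcases hP2 with hz1 | hz1
    · have h1 := prod_R_zero P₀ (px F (W : K)).roots (fun x hx => ?_) ⟨z, hzr, hz1⟩
      · exact Plc.not_unt_of_zero h1 hPr
      · obtain ⟨σ, hσW, hσz⟩ := hconj x hx
        have hx0 : x ≠ 0 := by
          rw [← hσz]
          exact (map_ne_zero σ).2 hz0
        rcases P₀.alt x hx0 with h2 | h2
        · exact h2
        · exfalso
          refine hkey P₀ (P₀.comap σ) c hc hWc ?_ hz1 ?_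
          · change P₀.R (σ W) c
            rw [hσW]
            exact hWc
          · change P₀.R (σ (z : K)⁻¹) 0
            rw [map_inv₀, hσz]
            exact h2
    · have h1 := prod_R_zero P₀ ((px F (W : K)).roots.map fun x => x⁻¹) (fun x hx => ?_)
        ⟨(z : K)⁻¹, Multiset.mem_map.2 ⟨z, hzr, rfl⟩, hz1⟩
      · rw [Multiset.prod_map_inv, Multiset.map_id'] at h1
        exact Plc.not_unt_of_zero h1 hPr.inv
      · obtain ⟨y, hy, rfl⟩ := Multiset.mem_map.1 hx
        obtain ⟨σ, hσW, hσz⟩ := hconj y hy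
        have hy0 : y ≠ 0 := by
          rw [← hσz]
          exact (map_ne_zero σ).2 hz0
        rcases P₀.alt y⁻¹ (inv_ne_zero hy0) with h2 | h2
        · exact h2
        · exfalso
          rw [inv_inv] at h2
          refine hkey (P₀.comap σ) P₀ c hc ?_ hWc ?_ hz1
          · change P₀.R (σ W) c
            rw [hσW]
            exact hWc
          · change P₀.R (σ z) 0
            rw [hσz]
            exact h2
  · obtain ⟨σ, hσW, hσz⟩ := exists_conj hF hd hWt (halg' _ hWt) hr hz'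
    exact cl_map' σ hzW hσz hσW

end

end Pool.Agent.Helper60.ZW
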