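import Pool.Agent.Helper60.ZW.P8

/-!
# The encoding for subvarieties which are not cosets
-/

set_option autoImplicit false

namespace Pool.Agent.Helper60.ZW

open Pool.Agent.R948 Pool.Agent.Helper60.ZC Pool.Agent.Helper60.ZH

section

open Polynomial

/-- **the translations from a special place** -/
theorem plus_all {K : Type} [Field K] [Algebra ℂ K] [IsAlgClosed K] {t : K}
    (ht : Transcendental ℂ t) (halg : ∀ y : K, IsAlgebraic (Algebra.adjoin ℂ {t}) y) {N : ℕ}
    {H : Gd N} {u z : Kˣ} (hu : NC u) (hz : NC z) (huz : z ∈ Cl H {u})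
    (P₀ : Plc K) (hP1 : P₀.Unt (u : K)) (hP2 : P₀.Spc (z : K)) (L : Type) [Field L] [Algebra ℂ L]
    [IsAlgClosed L] : Mob L H 1 1 0 1 := by
  classical
  obtain ⟨F, w, hF, hd, hb, hw, hr⟩ := exists_unb ht halg hu hz huz P₀ hP1 hP2
  refine plus_of_unb hF.ne_zero hb fun y hy x hx => ?_
  obtain ⟨φ, hφ⟩ := exists_emb (L := L) hw.transc (alg_of_nc ht halg hw.transc) hy.transc
  have h1 : py F (y : L) = (py F (w : K)).map (φ : K →+* L) := by
    rw [py, py, Polynomial.map_map]
    congr 1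
    refine RingHom.ext fun p => ?_
    change aeval (y : L) p = φ (aeval (w : K) p)
    rw [← aeval_algHom_apply, hφ]
  have hne : py F (w : K) ≠ 0 := by
    intro h
    have h2 : (py F (w : K)).coeff F.natDegree = 0 := by rw [h, coeff_zero]
    rw [py, coeff_map] at h2
    exact hw.aeval_ne (leadingCoeff_ne_zero.2 hF.ne_zero) h2
  have h2 : (x : L) ∈ ((py F (w : K)).map (φ : K →+* L)).roots := by
    rw [mem_roots (Polynomial.map_ne_zero hne), ← h1]
    exact hx
  rw [(IsAlgClosed.splits (py F (w : K))).roots_map] at h2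
  obtain ⟨z', hz', hzx⟩ := Multiset.mem_map.1 h2
  have hz'0 : z' ≠ 0 := by
    rintro rfl
    apply x.ne_zero
    rw [← hzx]
    exact map_zero φ
  exact cl_map' φ (hr (Units.mk0 z' hz'0) ((mem_roots hne).1 hz')) hzx hφ

/-- a field of functions of one variable -/
theorem exists_K : ∃ (K : Type) (_ : Field K) (_ : Algebra ℂ K) (_ : IsAlgClosed K) (t : K),
    Transcendental ℂ t ∧ ∀ y : K, IsAlgebraic (Algebra.adjoin ℂ {t}) y := by
  let k₀ := FractionRing ℂ[X]
  let K := AlgebraicClosure k₀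
  let t : K := algebraMap k₀ K (algebraMap ℂ[X] k₀ X)
  have hinj : Function.Injective (algebraMap ℂ[X] K) := by
    rw [IsScalarTower.algebraMap_eq ℂ[X] k₀ K]
    exact (algebraMap k₀ K).injective.comp (IsFractionRing.injective _ _)
  have hta : ∀ p : ℂ[X], aeval t p = algebraMap ℂ[X] K p := by
    intro p
    have h1 : t = algebraMap ℂ[X] K X := (IsScalarTower.algebraMap_apply ℂ[X] k₀ K X).symm
    rw [h1, aeval_algebraMap_apply, aeval_X_left_apply]
  refine ⟨K, inferInstance, inferInstance, inferInstance, t, ?_, fun y => ?_⟩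
  · rw [transcendental_iff_injective]
    intro p q hpq
    have h1 : aeval t p = aeval t q := hpq
    rw [hta, hta] at h1
    exact hinj h1
  · have h1 : IsAlgebraic k₀ y := Algebra.IsAlgebraic.isAlgebraic y
    have h2 : IsAlgebraic ℂ[X] y := (IsFractionRing.isAlgebraic_iff ℂ[X] k₀ K).2 h1
    obtain ⟨p, hp0, hp⟩ := h2
    let g : ℂ[X] →+* Algebra.adjoin ℂ {t} :=
      (algebraMap ℂ[X] K).codRestrict (Algebra.adjoin ℂ {t}) fun q => by
        rw [← hta, Algebra.adjoin_singleton_eq_range_aeval]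
        exact ⟨q, rfl⟩
    have hg : Function.Injective g := fun a b hab => hinj (congrArg Subtype.val hab)
    refine ⟨p.map g, ?_, ?_⟩
    · rwa [Polynomial.map_ne_zero_iff hg]
    · rw [aeval_def, eval₂_map]
      rw [aeval_def] at hp
      exact hp

/-- **the translations from one gate** -/
theorem plus_of_gate {N : ℕ} {H : Gd N} {K : Type} [Field K] [Algebra ℂ K]
    [IsAlgClosed K] {x : Kˣ} (hx : Transcendental ℂ (x : K))
    (halg : ∀ y : K, IsAlgebraic (Algebra.adjoin ℂ {(x : K)}) y) {p : Fin N → Kˣ} (hp : Zer H p)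
    (hdet : ∀ D : LD K, Lin H D p → D.f x = 0 → ∀ l, D.f (p l) = 0) (j : Fin N)
    (hind : ∀ a b : ℤ, (a ≠ 0 ∨ b ≠ 0) → ∀ e : ℂˣ, x ^ a * p j ^ b ≠ cst K e)
    (L : Type) [Field L] [Algebra ℂ L] [IsAlgClosed L] : Mob L H 1 1 0 1 := by
  classical
  have hxn : NC x := by
    intro e he
    apply hind 1 0 (Or.inl one_ne_zero) e
    rw [zpow_one, zpow_zero, mul_one]
    exact he
  set y := p j with hydef
  have hyx : y ∈ Cl H {x} := by
    refine ⟨Finset.univ.image p, ⟨{p}, fun q hq => ?_, fun D hD hA z hz => ?_⟩,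
      Finset.mem_image_of_mem _ (Finset.mem_univ j)⟩
    · rw [Finset.mem_singleton.1 hq]
      exact ⟨hp, fun l => Finset.mem_image_of_mem _ (Finset.mem_univ l)⟩
    · obtain ⟨l, -, rfl⟩ := Finset.mem_image.1 hz
      exact hdet D (hD p (Finset.mem_singleton_self p)) (hA x rfl) l
  -- the special place
  obtain ⟨P₁, hP₁⟩ := t_ex K (x : K) hxn.transc (alg_of_nc hx halg hxn.transc)
  obtain ⟨F, hF, hdF, h0F, hrF⟩ := exists_irr hxn.transc y.ne_zero
    (alg_of_nc hx halg hxn.transc (y : K))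
  obtain ⟨m, -, hm⟩ := t_new K F (F.support.sup fun i => (F.coeff i).natDegree) hF.ne_zero (fun l => by
    by_cases hl : l ∈ F.support
    · exact Finset.le_sup (f := fun i => (F.coeff i).natDegree) hl
    · rw [notMem_support_iff.1 hl, natDegree_zero]
      exact Nat.zero_le _) P₁ (y : K) (x : K) y.ne_zero x.ne_zero (Or.inl hP₁) hrF
  set Q := F.natDegree.factorial with hQ
  have hQ0 : (Q : ℤ) ≠ 0 := by
    have := F.natDegree.factorial_ne_zero
    exact_mod_cast this
  let u : Kˣ := x ^ (-m) * y ^ (Q : ℤ)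
  have hun : NC u := fun e he => hind (-m) Q (Or.inr hQ0) e he
  have huv : P₁.Unt (u : K) := by
    have h1 : (u : K) = (y : K) ^ Q * (x : K) ^ (-m) := by
      rw [Units.val_mul, Units.val_zpow_eq_zpow_val, Units.val_zpow_eq_zpow_val, zpow_natCast]
      ring
    rw [h1]
    exact hm
  have hucl : u ∈ Cl H {x} := cl_mul (cl_zpow (cl_self' x) _) (cl_zpow hyx _)
  have hxu : x ∈ Cl H {u} := exchange hxn hun hucl
  exact plus_all hx halg hun hxn hxu P₁ huv (Or.inl hP₁) L

/-- **the encoding for subvarieties which are not cosets** -/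
theorem enc_all (hG : S_GEN) (hE : S_EMB2) {N : ℕ} {W : Set (Fin N → ℂˣ)} (hW : Subvariety W)
    (hc : ¬ IsCoset W) {f : MvPolynomial (Fin N) ℂ} (hf : f ∉ van W) :
    Enc ⟨(van W : Set (MvPolynomial (Fin N) ℂ)), f⟩ := by
  obtain ⟨K, _, _, _, t, ht, halg⟩ := exists_K
  have ht0 : t ≠ 0 := by
    rintro rfl
    exact ht isAlgebraic_zero
  obtain ⟨Ω, _, _, ξ, B, i, j, h1, h2, h3, h4, h5⟩ := hG N W hW hc
  obtain ⟨p, hp1, hp2, -, hp3, hp4⟩ := hE N (van W) Ω ξ B i j f h1 h2 h3 h4 h5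
    (fun h => hf ((h1 f).1 h)) K (Units.mk0 t ht0) ht
  exact t_enc fun L _ _ _ => plus_of_gate (H := ⟨(van W : Set (MvPolynomial (Fin N) ℂ)), f⟩)
    (x := Units.mk0 t ht0) ht halg (p := p) ⟨hp1, hp2⟩ hp3 j hp4 L

end

end Pool.Agent.Helper60.ZW
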