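import Pool.Agent.Helper60.ZW.Co

/-!
# Zilber's conjecture and the powers of one subvariety: components and unions of cosets
-/

set_option autoImplicit false
set_option linter.unusedSectionVars false

namespace Pool.Agent.Helper60.ZW

open MvPolynomial Pool.Agent.R948 Pool.Agent.N902.OP

/-- the irreducible components of a closed set -/
theorem exists_comp {ι : Type} [Fintype ι] {W : Set (ι → ℂˣ)} (hW : ZClosed W) :
    ∃ 𝒞 : Set (Set (ι → ℂˣ)), 𝒞.Finite ∧ (∀ C ∈ 𝒞, Subvariety C) ∧ W = ⋃₀ 𝒞 ∧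
      ∀ C ∈ 𝒞, ∃ f : MvPolynomial ι ℂ, f ∉ van C ∧ ∀ C' ∈ 𝒞, C' ≠ C → f ∈ van C' := by
  classical
  have hfin := t_finite_comp hW
  refine ⟨{C | TComp C W}, hfin, fun C hC => hC.1, ?_, ?_⟩
  · refine Set.Subset.antisymm ?_ (Set.sUnion_subset fun C hC => hC.2.1)
    intro x hx
    obtain ⟨C, hC1, hC2⟩ := t_exists_comp (sub_one' x) hW (Set.singleton_subset_iff.2 hx)
    exact ⟨C, hC1, hC2 rfl⟩
  · intro C hC
    have h1 : ∀ C' ∈ hfin.toFinset.erase C, ∃ f ∈ van C', f ∉ van C := by
      intro C' hC'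
      rw [Finset.mem_erase, hfin.mem_toFinset] at hC'
      by_contra hcon
      push Not at hcon
      apply hC'.1
      refine hC.2.2 C' hC'.2.1 ?_ hC'.2.2.1
      rw [← hC.1.closed.eq, ← hC'.2.1.closed.eq]
      exact zeros_anti hcon
    choose! f hf hf2 using h1
    have hp := hC.1.prime
    refine ⟨∏ C' ∈ hfin.toFinset.erase C, f C', ?_, ?_⟩
    · intro h
      obtain ⟨C', hC', h2⟩ := hp.prod_mem_iff.1 h
      exact hf2 C' hC' h2
    · intro C' hC' hne x hx
      rw [map_prod]
      have hmem : C' ∈ hfin.toFinset.erase C := by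
        rw [Finset.mem_erase, hfin.mem_toFinset]
        exact ⟨hne, hC'⟩
      exact Finset.prod_eq_zero hmem (hf C' hmem x hx)

/-- the characters of a product -/
def prodc {N k : ℕ} (Λ : Fin k → Submodule ℚ (Fin N → ℚ)) :
    Submodule ℚ (Fin k × Fin N → ℚ) where
  carrier := {v | ∀ i, (fun j => v (i, j)) ∈ Λ i}
  zero_mem' := fun i => (Λ i).zero_mem
  add_mem' := fun {_ _} hv hw i => (Λ i).add_mem (hv i) (hw i)
  smul_mem' := fun c _ hv i => (Λ i).smul_mem c (hv i)

/-- products of cosets are cosets -/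
theorem prod_cst {N k : ℕ} (Λ : Fin k → Submodule ℚ (Fin N → ℚ)) (x : Fin k → Fin N → ℂˣ) :
    {z : Fin k × Fin N → ℂˣ | ∀ i, (fun j => z (i, j)) ∈ cst (Λ i) (x i)} =
      cst (prodc Λ) (fun t => x t.1 t.2) := by
  classical
  have hm : ∀ (z : Fin k × Fin N → ℂˣ) (b : Fin k × Fin N → ℤ),
      mon z b = ∏ i, mon (fun j => z (i, j)) (fun j => b (i, j)) := by
    intro z b
    rw [mon, Fintype.prod_prod_type]
    rfl
  ext z
  constructor
  · intro hz b hb
    rw [hm, hm]
    refine Finset.prod_congr rfl fun i _ => ?_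
    exact hz i _ (hb i)
  · intro hz i a ha
    let b : Fin k × Fin N → ℤ := fun t => if t.1 = i then a t.2 else 0
    have hb : (fun t => (b t : ℚ)) ∈ prodc Λ := by
      intro i'
      by_cases h : i' = i
      · subst h
        have : (fun j => ((b (i', j) : ℤ) : ℚ)) = fun j => (a j : ℚ) := by
          funext j
          simp [b]
        rw [this]
        exact ha
      · have : (fun j => ((b (i', j) : ℤ) : ℚ)) = 0 := by
          funext j
          simp [b, h]
        rw [this]
        exact (Λ i').zero_mem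
    have h1 := hz b hb
    rw [hm, hm, Finset.prod_eq_single i, Finset.prod_eq_single i] at h1
    · have h2 : (fun j => b (i, j)) = a := by
        funext j
        simp [b]
      rw [h2] at h1
      exact h1
    · intro i' _ hi'
      have h2 : (fun j => b (i', j)) = 0 := by
        funext j
        simp [b, hi']
      rw [h2, mon_zero]
    · intro h
      exact absurd (Finset.mem_univ i) h
    · intro i' _ hi'
      have h2 : (fun j => b (i', j)) = 0 := by
        funext j
        simp [b, hi']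
      rw [h2, mon_zero]
    · intro h
      exact absurd (Finset.mem_univ i) h

/-- the optimal subvarieties of the powers of a finite union of cosets -/
theorem union_cosets {N : ℕ} (W : Set (Fin N → ℂˣ)) (𝒞 : Set (Set (Fin N → ℂˣ))) (h : 𝒞.Finite)
    (hC : ∀ C ∈ 𝒞, Subvariety C ∧ IsCoset C) (hW : W = ⋃₀ 𝒞) (k : ℕ) :
    {A | Optimal A (power W k)}.Finite := by
  classical
  have hfin : Finite 𝒞 := h
  let _ : Fintype 𝒞 := Fintype.ofFinite _
  choose x hx using fun C : 𝒞 => (hC C C.2).1.nonempty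
  let pr : (Fin k → 𝒞) → Set (Fin k × Fin N → ℂˣ) := fun s =>
    {z | ∀ i, (fun j => z (i, j)) ∈ (s i : Set (Fin N → ℂˣ))}
  have hpr : ∀ s, pr s = cst (prodc fun i => crel ℂ (toTP (hC _ (s i).2).1).pt)
      (fun t => x (s t.1) t.2) := by
    intro s
    have h2 := prod_cst (fun i => crel ℂ (toTP (hC _ (s i).2).1).pt) (fun i => x (s i))
    refine Eq.trans ?_ h2
    ext z
    refine forall_congr' fun i => ?_
    have h3 := (hC _ (s i).2).2.eq_cst (hC _ (s i).2).1 (hx (s i))
    exact (Set.ext_iff.1 h3 _)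
  have hsub : ∀ s, Subvariety (pr s) := by
    intro s
    rw [hpr]
    obtain ⟨d, hd, hcst⟩ := cst_main (k := ℂ)
      (prodc fun i => crel ℂ (toTP (hC _ (s i).2).1).pt)
    exact (hcst _).1
  have hle : ∀ s, pr s ⊆ power W k := by
    intro s z hz i
    rw [hW]
    exact ⟨s i, (s i).2, hz i⟩
  refine (Set.finite_range pr).subset ?_
  rintro A ⟨hA, hAW, hopt⟩
  have h1 : A ⊆ ⋃ s ∈ (Finset.univ : Finset (Fin k → 𝒞)), pr s := by
    intro z hz
    have h2 : ∀ i, ∃ C : 𝒞, (fun j => z (i, j)) ∈ (C : Set (Fin N → ℂˣ)) := by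
      intro i
      have h3 := hAW hz i
      rw [hW] at h3
      obtain ⟨C, hC1, hC2⟩ := h3
      exact ⟨⟨C, hC1⟩, hC2⟩
    choose s hs using h2
    exact Set.mem_iUnion₂.2 ⟨s, Finset.mem_univ s, hs⟩
  obtain ⟨s, -, hs⟩ := t_finite_union hA Finset.univ pr (fun s => (hsub s).closed) h1
  refine ⟨s, ?_⟩
  by_contra hne
  have h2 : defect (pr s) ≤ defect A := by
    rw [hpr]
    refine defect_cst_le _ _ hA ?_
    rw [← hpr]
    exact hs
  exact hopt (pr s) (hsub s) (lt_of_le_of_ne hs fun h => hne h.symm) (hle s) h2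

end Pool.Agent.Helper60.ZW
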